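import Pool.Agent.Helper79.DG.Def

/-!
# Coding with gap words: first properties
-/

set_option autoImplicit false

namespace Pool.Agent.Helper79.DG

open Pool.Agent.Helper79.CF Pool.Agent.Helper79.DD

variable {I : Type} {C : Type} {X : Type} [DecidableEq I]
variable {D : ℕ → I} {g : I → List C} {e : I → X}

omit [DecidableEq I] in
theorem code_append (l m : List I) :
    code g e (l ++ m) = code g e l ++ code g e m := by
  induction l with
  | nil => rfl
  | cons x l ih => simp [code, ih]

omit [DecidableEq I] in
theorem code_len (l : List I) : l.length ≤ (code g e l).length := by
  induction l with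
  | nil => exact le_refl _
  | cons x l ih =>
    simp only [code, List.length_cons, List.length_append, List.length_map]
    omega

omit [DecidableEq I] in
theorem code_prefix {v P : List I} (h : v <+: P) : code g e v <+: code g e P := by
  obtain ⟨t, rfl⟩ := h
  rw [code_append]
  exact List.prefix_append _ _

theorem code_pal_len (m : ℕ) : m ≤ (code g e (pal m D)).length :=
  (pal_len m D).trans (code_len _)

theorem uw_eq {m n : ℕ} (h : n < (code g e (pal m D)).length) :
    uw D g e n = (code g e (pal m D))[n] := by
  have h1 : n < (code g e (pal (n + 1) D)).length := code_pal_len (n + 1)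
  unfold uw
  rw [List.getD_eq_getElem _ _ h1]
  rcases le_total (n + 1) m with h2 | h2
  · exact (code_prefix (pal_mono h2 D)).getElem h1
  · exact ((code_prefix (pal_mono h2 D)).getElem h).symm

end Pool.Agent.Helper79.DG
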