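import Pool.Agent.Helper79.DG.Def

set_option autoImplicit false

namespace Pool.Agent.Helper79.DG

open Pool.Agent.Helper79.CF Pool.Agent.Helper79.DD

private lemma ext_right {C : Type} {F : List C → Prop} (hF : Lang F) {w : List C} (hw : F w)
    (n : ℕ) : ∃ v, F v ∧ w <+: v ∧ v.length = w.length + n := by
  induction n with
  | zero => exact ⟨w, hw, List.prefix_rfl, rfl⟩
  | succ n ih =>
    obtain ⟨v, h1, h2, h3⟩ := ih
    obtain ⟨a, ha⟩ := hF.right v h1
    refine ⟨v ++ [a], ha, h2.trans (List.prefix_append _ _), ?_⟩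
    rw [List.length_append, h3, List.length_singleton]
    omega

private lemma ext_left {C : Type} {F : List C → Prop} (hF : Lang F) {w : List C} (hw : F w)
    (n : ℕ) : ∃ v, F v ∧ w <:+ v ∧ v.length = w.length + n := by
  induction n with
  | zero => exact ⟨w, hw, List.suffix_rfl, rfl⟩
  | succ n ih =>
    obtain ⟨v, h1, h2, h3⟩ := ih
    obtain ⟨a, ha⟩ := hF.left v h1
    refine ⟨a :: v, ha, h2.trans (List.suffix_cons _ _), ?_⟩
    rw [List.length_cons, h3]
    omega

private lemma exists_enum (R : Type) [Countable R] [Nonempty R] :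
    ∃ D : ℕ → R, ∀ (r : R) (N : ℕ), ∃ n, N ≤ n ∧ D n = r := by
  obtain ⟨f, hf⟩ := exists_surjective_nat R
  refine ⟨fun n => f (Nat.unpair n).1, fun r N => ?_⟩
  obtain ⟨a, rfl⟩ := hf r
  refine ⟨Nat.pair a N, Nat.right_le_pair a N, ?_⟩
  show f (Nat.unpair (Nat.pair a N)).1 = f a
  rw [Nat.unpair_pair]

/-- The choice of the gap words. -/
theorem choice {C X : Type} [Fintype C] [Fintype X] [Nonempty X] {F : List C → Prop} (hF : Lang F)
    (m : ℕ → ℕ) (hm : ∀ n, m n ≤ Fintype.card X * pF F n) (hinf : ∀ N, ∃ n, N ≤ n ∧ 0 < m n) :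
    ∃ M : ℕ → Set (List C × X), (∀ j, (M j).ncard = m j ∧ (M j).Finite) ∧
      (∀ j, ∀ p ∈ M j, F p.1 ∧ p.1.length = j) ∧
      (∀ (x : X) (w : List C), F w → ∃ (j : ℕ) (v : List C), (v, x) ∈ M j ∧ w <+: v) ∧
      (∀ w : List C, F w → ∃ (j : ℕ), ∃ p ∈ M j, w <:+ p.1) := by
  classical
  obtain ⟨D, hDr⟩ := exists_enum (X × List C × Bool)
  -- the words of length `j`
  let A : ℕ → Set (List C × X) := fun j => {v : List C | F v ∧ v.length = j} ×ˢ Set.univ
  have hWfin : ∀ j, {v : List C | F v ∧ v.length = j}.Finite := fun j =>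
    (List.finite_length_eq C j).subset fun v hv => hv.2
  have hAfin : ∀ j, (A j).Finite := fun j => (hWfin j).prod Set.finite_univ
  have hAcard : ∀ j, (A j).ncard = Fintype.card X * pF F j := by
    intro j
    show ({v : List C | F v ∧ v.length = j} ×ˢ (Set.univ : Set X)).ncard = _
    rw [Set.ncard_prod, Set.ncard_univ, Nat.card_eq_fintype_card, mul_comm]
    rfl
  -- the element which serves the requirement
  have hserve : ∀ (j : ℕ) (r : X × List C × Bool), ∃ p ∈ A j, F r.2.1 → r.2.1.length ≤ j →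
      (r.2.2 = true → p.2 = r.1 ∧ r.2.1 <+: p.1) ∧ (r.2.2 = false → r.2.1 <:+ p.1) := by
    intro j r
    obtain ⟨x, w, bb⟩ := r
    by_cases h : F w ∧ w.length ≤ j
    · obtain ⟨h1, h2⟩ := h
      cases bb with
      | true =>
        obtain ⟨v, h3, h4, h5⟩ := ext_right hF h1 (j - w.length)
        refine ⟨(v, x), ⟨⟨h3, by rw [h5]; omega⟩, Set.mem_univ _⟩, fun _ _ =>
          ⟨fun _ => ⟨rfl, h4⟩, fun h => ?_⟩⟩
        exact absurd h (by simp)
      | false =>
        obtain ⟨v, h3, h4, h5⟩ := ext_left hF h1 (j - w.length)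
        refine ⟨(v, x), ⟨⟨h3, by rw [h5]; omega⟩, Set.mem_univ _⟩, fun _ _ =>
          ⟨fun h => ?_, fun _ => h4⟩⟩
        exact absurd h (by simp)
    · obtain ⟨v, h3, h4, h5⟩ := ext_right hF hF.nil j
      refine ⟨(v, x), ⟨⟨h3, by rw [h5]; simp⟩, Set.mem_univ _⟩, fun h1 h2 => ?_⟩
      exact absurd ⟨h1, h2⟩ h
  choose p hpA hp using hserve
  have hM : ∀ j, ∃ M : Set (List C × X), M ⊆ A j ∧ M.ncard = m j ∧
      (0 < m j → p j (D (Nat.count (fun i => 0 < m i) j)) ∈ M) := by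
    intro j
    rcases Nat.eq_zero_or_pos (m j) with h0 | h0
    · exact ⟨∅, Set.empty_subset _, by rw [Set.ncard_empty, h0], fun h => by omega⟩
    · obtain ⟨u, hu1, hu2, hu3⟩ := Set.exists_subsuperset_card_eq
        (s := {p j (D (Nat.count (fun i => 0 < m i) j))}) (t := A j) (n := m j)
        (Set.singleton_subset_iff.2 (hpA _ _)) (by rw [Set.ncard_singleton]; exact h0)
        (by rw [hAcard]; exact hm j)
      exact ⟨u, hu2, hu3, fun _ => hu1 rfl⟩
  choose M hMA hMc hMp using hM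
  have hset : (setOf fun i => 0 < m i).Infinite := by
    intro hfin
    obtain ⟨B, hB⟩ := hfin.bddAbove
    obtain ⟨n, hn, hn'⟩ := hinf (B + 1)
    have := hB hn'
    omega
  have hkey : ∀ r : X × List C × Bool, F r.2.1 → ∃ j, 0 < m j ∧ r.2.1.length ≤ j ∧
      p j r ∈ M j := by
    intro r hr
    obtain ⟨k, hk, hDk⟩ := hDr r r.2.1.length
    refine ⟨Nat.nth (fun i => 0 < m i) k, Nat.nth_mem_of_infinite hset k, ?_, ?_⟩
    · exact hk.trans (Nat.le_nth fun hfin => absurd hfin hset)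
    · have h1 := hMp (Nat.nth (fun i => 0 < m i) k) (Nat.nth_mem_of_infinite hset k)
      rw [Nat.count_nth_of_infinite hset, hDk] at h1
      exact h1
  refine ⟨M, fun j => ⟨hMc j, (hAfin j).subset (hMA j)⟩, fun j q hq => (hMA j hq).1, ?_, ?_⟩
  · intro x w hw
    obtain ⟨j, -, h2, h3⟩ := hkey (x, w, true) hw
    have h4 := (hp j (x, w, true) hw h2).1 rfl
    refine ⟨j, (p j (x, w, true)).1, ?_, h4.2⟩
    have h5 : ((p j (x, w, true)).1, x) = p j (x, w, true) := Prod.ext rfl h4.1.symm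
    rw [h5]
    exact h3
  · intro w hw
    obtain ⟨j, -, h2, h3⟩ := hkey (Classical.arbitrary X, w, false) hw
    exact ⟨j, _, h3, (hp j (Classical.arbitrary X, w, false) hw h2).2 rfl⟩

end Pool.Agent.Helper79.DG
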