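import Pool.Agent.Helper79.DG.Cod

/-!
# The complexity of the coded word
-/

set_option autoImplicit false

namespace Pool.Agent.Helper79.DG

open Pool.Agent.Helper79.CF Pool.Agent.Helper79.DD

variable {I : Type} {C : Type} {X : Type} [DecidableEq I]
variable {D : ℕ → I} {g : I → List C} {e : I → X}

/-- The beginnings of the word. -/
def pf (D : ℕ → I) (g : I → List C) (e : I → X) (m : ℕ) : List (C ⊕ X) :=
  (code g e (pal m D)).take m

theorem pf_len (m : ℕ) : (pf D g e m).length = m := by
  rw [pf, List.length_take]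
  exact min_eq_left (code_pal_len m)

theorem prefix_eq_pf {m : ℕ} {w : List (C ⊕ X)} (h : w <+: code g e (pal m D)) :
    w = pf D g e w.length := by
  have h1 : w.length ≤ (code g e (pal w.length D)).length := code_pal_len _
  apply List.ext_getElem
  · rw [pf_len]
  · intro i hi hi'
    unfold pf
    rw [List.getElem_take, ← uw_eq, h.getElem hi, ← uw_eq]

theorem factor_iff (n : ℕ) (w : List (C ⊕ X)) :
    (∃ i : ℕ, w = List.ofFn (fun j : Fin n => uw D g e (i + j))) ↔
      w.length = n ∧ Lu D g e w := by
  constructor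
  · rintro ⟨i, rfl⟩
    refine ⟨by simp, i + n, ?_⟩
    have h1 : List.ofFn (fun j : Fin n => uw D g e (i + j)) =
        ((code g e (pal (i + n) D)).drop i).take n := by
      have hl := code_pal_len (D := D) (g := g) (e := e) (i + n)
      apply List.ext_getElem
      · simp only [List.length_ofFn, List.length_take, List.length_drop]
        omega
      · intro k hk hk'
        simp only [List.length_ofFn] at hk
        rw [List.getElem_ofFn, List.getElem_take, List.getElem_drop]
        exact uw_eq (by omega)
    rw [h1]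
    exact (List.take_prefix _ _).isInfix.trans (List.drop_suffix _ _).isInfix
  · rintro ⟨rfl, k, s, t, h⟩
    refine ⟨s.length, ?_⟩
    apply List.ext_getElem
    · simp
    · intro j hj hj'
      rw [List.getElem_ofFn]
      have h1 : s.length + j < (code g e (pal k D)).length := by
        rw [← h]
        simp only [List.length_append]
        omega
      rw [uw_eq h1]
      simp only [← h]
      rw [List.getElem_append_left (by simp; omega), List.getElem_append_right (by omega)]
      simp

variable [Fintype C] [Fintype X]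

open Classical in
/-- The finset of the factors of length `n`. -/
noncomputable def FF (D : ℕ → I) (g : I → List C) (e : I → X) (n : ℕ) : Finset (List (C ⊕ X)) :=
  ((List.finite_length_eq (C ⊕ X) n).subset
    (fun (w : List (C ⊕ X)) (h : w.length = n ∧ Lu D g e w) => h.1)).toFinset

theorem mem_FF {n : ℕ} {w : List (C ⊕ X)} : w ∈ FF D g e n ↔ w.length = n ∧ Lu D g e w := by
  unfold FF
  rw [Set.Finite.mem_toFinset]
  rfl

theorem complexity_eq (n : ℕ) : complexity (uw D g e) n = (FF D g e n).card := by
  unfold complexity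
  have h1 : (List.ofFn '' factors (uw D g e) n) = (FF D g e n : Set (List (C ⊕ X))) := by
    ext w
    rw [Finset.mem_coe, mem_FF, ← factor_iff]
    constructor
    · rintro ⟨v, ⟨i, rfl⟩, rfl⟩
      exact ⟨i, rfl⟩
    · rintro ⟨i, rfl⟩
      exact ⟨_, ⟨i, rfl⟩, rfl⟩
  have h2 : (List.ofFn '' factors (uw D g e) n).ncard = (factors (uw D g e) n).ncard :=
    Set.ncard_image_of_injective _ List.ofFn_injective
  rw [← h2, h1, Set.ncard_coe_finset]

open Classical in
/-- The number of the left extensions. -/
noncomputable def dg (D : ℕ → I) (g : I → List C) (e : I → X) (w : List (C ⊕ X)) : ℕ :=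
  (Finset.univ.filter (fun x => Lu D g e (x :: w))).card

omit [Fintype C] [Fintype X] in
theorem Lu_tail {x : C ⊕ X} {w : List (C ⊕ X)} (h : Lu D g e (x :: w)) : Lu D g e w := by
  obtain ⟨k, s, t, h⟩ := h
  exact ⟨k, s ++ [x], t, by rw [← h]; simp⟩

theorem card_succ (n : ℕ) :
    (FF D g e (n + 1)).card = ∑ w ∈ FF D g e n, dg D g e w := by
  classical
  rw [Finset.card_eq_sum_card_fiberwise (f := List.tail) (t := FF D g e n)]
  · refine Finset.sum_congr rfl fun w hw => ?_
    rw [mem_FF] at hw
    unfold dg
    symm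
    refine Finset.card_bij (fun x _ => x :: w) ?_ ?_ ?_
    · intro x hx
      rw [Finset.mem_filter] at hx
      rw [Finset.mem_filter, mem_FF]
      exact ⟨⟨by simp [hw.1], hx.2⟩, rfl⟩
    · intro x _ y _ h
      exact (List.cons.inj h).1
    · intro v hv
      rw [Finset.mem_filter, mem_FF] at hv
      obtain ⟨⟨h1, h2⟩, h3⟩ := hv
      cases v with
      | nil => simp at h1
      | cons x v =>
        simp only [List.tail_cons] at h3
        subst h3
        exact ⟨x, by rw [Finset.mem_filter]; exact ⟨Finset.mem_univ _, h2⟩, rfl⟩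
  · intro v hv
    rw [Finset.mem_coe, mem_FF] at hv ⊢
    cases v with
    | nil => simp at hv
    | cons x v => exact ⟨by simpa using hv.1, Lu_tail hv.2⟩

theorem dg_pos (hD : ∀ i n, ∃ m, n ≤ m ∧ D m = i) {w : List (C ⊕ X)} (h : Lu D g e w) :
    1 ≤ dg D g e w := by
  classical
  obtain ⟨k, s, t, h⟩ := h
  obtain ⟨m, s', t', h'⟩ := lg_pre k D (D 0) (hD (D 0))
  have h1 : code g e (pal m D) =
      (code g e s' ++ Sum.inr (e (D 0)) :: (L X (g (D 0)) ++ s)) ++ w ++
        (t ++ code g e t') := by
    rw [← h', code_append, code_append, code, ← h]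
    simp
  rcases List.eq_nil_or_concat (code g e s' ++ Sum.inr (e (D 0)) :: (L X (g (D 0)) ++ s)) with
    h2 | ⟨q, x, h2⟩
  · simp at h2
  · rw [h2, List.concat_eq_append] at h1
    have h3 : Lu D g e (x :: w) := ⟨m, q, t ++ code g e t', by rw [h1]; simp⟩
    unfold dg
    exact Finset.card_pos.2 ⟨x, by rw [Finset.mem_filter]; exact ⟨Finset.mem_univ _, h3⟩⟩

omit [Fintype C] [Fintype X] in
theorem pf_head {m : ℕ} (hm : 0 < m) : ∃ (r' : List (C ⊕ X)),
    pf D g e m = Sum.inr (e (D 0)) :: r' := by
  obtain ⟨t, ht⟩ := pal_mono (show 1 ≤ m from hm) D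
  obtain ⟨m, rfl⟩ : ∃ m', m = m' + 1 := ⟨m - 1, by omega⟩
  unfold pf
  rw [← ht]
  exact ⟨(L X (g (D 0)) ++ code g e t).take m, by simp [pal, psi, code]⟩

omit [Fintype C] [Fintype X] in
theorem pf_cases (m : ℕ) : pf D g e m = [] ∨ ∃ (y : X) (r : List (C ⊕ X)),
    pf D g e m = Sum.inr y :: r := by
  rcases Nat.eq_zero_or_pos m with h | h
  · left
    rw [h]
    rfl
  · obtain ⟨r, hr⟩ := pf_head (D := D) (g := g) (e := e) h
    exact Or.inr ⟨_, r, hr⟩

omit [DecidableEq I] [Fintype C] [Fintype X] in
theorem L_app_inj {a b : List C} {r r' : List (C ⊕ X)} (h : L X a ++ r = L X b ++ r')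
    (h1 : r = [] ∨ ∃ (y : X) (q : List (C ⊕ X)), r = Sum.inr y :: q)
    (h2 : r' = [] ∨ ∃ (y : X) (q : List (C ⊕ X)), r' = Sum.inr y :: q) : a = b := by
  have key : ∀ (a b : List C) (r r' as : List (C ⊕ X)), L X b = L X a ++ as → r = as ++ r' →
      (r = [] ∨ ∃ (y : X) (q : List (C ⊕ X)), r = Sum.inr y :: q) → a = b := by
    intro a b r r' as h3 h4 h1
    cases as with
    | nil => exact (L_inj (X := X) (by rw [h3, List.append_nil])).symm
    | cons q as =>
      exfalso
      have hq : q ∈ L X b := by
        rw [h3]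
        simp
      rcases h1 with h1 | ⟨y, p, h1⟩
      · rw [h1] at h4
        simp at h4
      · rw [h1] at h4
        simp only [List.cons_append, List.cons.injEq] at h4
        rw [← h4.1] at hq
        exact inr_notMem hq
  rcases List.append_eq_append_iff.1 h with ⟨as, h3, h4⟩ | ⟨bs, h3, h4⟩
  · exact key a b r r' as h3 h4 h1
  · exact (key b a r' r bs h3 h4 h2).symm

variable {F : List C → Prop}

open Classical in
/-- The words of length `n` of the language. -/
noncomputable def FS (F : List C → Prop) (n : ℕ) : Finset (List C) :=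
  ((List.finite_length_eq C n).subset
    (fun (w : List C) (h : F w ∧ w.length = n) => h.2)).toFinset

omit [Fintype X] in
theorem mem_FS {n : ℕ} {w : List C} : w ∈ FS F n ↔ F w ∧ w.length = n := by
  unfold FS
  rw [Set.Finite.mem_toFinset]
  rfl

theorem card_FS (n : ℕ) : (FS F n).card = pF F n := by
  unfold pF
  rw [← Set.ncard_coe_finset]
  congr 1
  ext w
  rw [Finset.mem_coe, mem_FS]
  rfl

open Classical in
/-- The number of the left extensions in the language. -/
noncomputable def ex (F : List C → Prop) (a : List C) : ℕ :=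
  (Finset.univ.filter (fun c => F (c :: a))).card

open Classical in
/-- The number of the letters with gap `a`. -/
noncomputable def mu (g : I → List C) (e : I → X) (a : List C) : ℕ :=
  (Finset.univ.filter (fun y => ∃ i, g i = a ∧ e i = y)).card

theorem sum_ex (hF : Lang F) (n : ℕ) : ∑ a ∈ FS F n, ex F a = pF F (n + 1) := by
  classical
  rw [← card_FS, Finset.card_eq_sum_card_fiberwise (f := List.tail) (t := FS F n)]
  · refine Finset.sum_congr rfl fun w hw => ?_
    rw [mem_FS] at hw
    unfold ex
    refine Finset.card_bij (fun x _ => x :: w) ?_ ?_ ?_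
    · intro x hx
      rw [Finset.mem_filter] at hx
      rw [Finset.mem_filter, mem_FS]
      exact ⟨⟨hx.2, by simp [hw.2]⟩, rfl⟩
    · intro x _ y _ h
      exact (List.cons.inj h).1
    · intro v hv
      rw [Finset.mem_filter, mem_FS] at hv
      obtain ⟨⟨h1, h2⟩, h3⟩ := hv
      cases v with
      | nil => simp at h2
      | cons x v =>
        simp only [List.tail_cons] at h3
        subst h3
        exact ⟨x, by rw [Finset.mem_filter]; exact ⟨Finset.mem_univ _, h1⟩, rfl⟩
  · intro v hv
    rw [Finset.mem_coe, mem_FS] at hv ⊢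
    cases v with
    | nil => simp at hv
    | cons x v => exact ⟨hF.fac hv.1 ⟨[x], [], by simp⟩, by simpa using hv.2⟩

theorem card_sum {S : C ⊕ X → Prop} [DecidablePred S] :
    (Finset.univ.filter S).card = (Finset.univ.filter fun c => S (Sum.inl c)).card +
      (Finset.univ.filter fun y => S (Sum.inr y)).card := by
  rw [Finset.card_filter, Finset.card_filter, Finset.card_filter, Fintype.sum_sum_type]

/-- Extensions of the words over `C`. -/
theorem dg_gap (hF : Lang F) (hD : ∀ i n, ∃ m, n ≤ m ∧ D m = i) (h3 : ∀ i, F (g i))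
    (h1 : ∀ (x : X) (w : List C), F w → ∃ i, w <+: g i ∧ e i = x) [Nonempty X]
    {a : List C} (ha : F a) : dg D g e (L X a) = ex F a + Fintype.card X := by
  classical
  unfold dg ex
  rw [card_sum]
  congr 1
  · congr 1
    ext c
    simp only [Finset.mem_filter, Finset.mem_univ, true_and]
    rw [show (Sum.inl c :: L X a : List (C ⊕ X)) = L X (c :: a) from rfl,
      lu_gap hD (by simp)]
    constructor
    · rintro ⟨i, h⟩
      exact hF.fac (h3 i) h
    · intro h
      obtain ⟨x⟩ := ‹Nonempty X›
      obtain ⟨i, h4, -⟩ := h1 x _ h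
      exact ⟨i, h4.isInfix⟩
  · rw [← Finset.card_univ]
    congr 1
    ext y
    simp only [Finset.mem_filter, Finset.mem_univ, true_and, iff_true]
    rw [lu_first hD]
    exact h1 y a ha

/-- Extensions of the other words. -/
theorem dg_pre (hF : Lang F) (hD : ∀ i n, ∃ m, n ≤ m ∧ D m = i) (h3 : ∀ i, F (g i))
    (h2 : ∀ w : List C, F w → ∃ i, w <:+ g i) {a : List C} {m : ℕ} (hm : 0 < m) :
    dg D g e (L X a ++ pf D g e m) = ex F a + mu g e a := by
  classical
  obtain ⟨r, hr⟩ := pf_head (D := D) (g := g) (e := e) hm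
  have hp : Sum.inr (e (D 0)) :: r <+: code g e (pal m D) := by
    rw [← hr]
    exact List.take_prefix _ _
  unfold dg ex mu
  rw [card_sum]
  congr 1
  · congr 1
    ext c
    simp only [Finset.mem_filter, Finset.mem_univ, true_and]
    rw [hr, deg_pre hD hp]
    constructor
    · rintro (⟨i, -, h⟩ | ⟨c', i, h, h'⟩)
      · cases h
      · rw [Sum.inl.injEq] at h
        rw [h]
        exact hF.fac (h3 i) h'.isInfix
    · intro h
      obtain ⟨i, hi⟩ := h2 _ h
      exact Or.inr ⟨c, i, rfl, hi⟩
  · congr 1
    ext y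
    simp only [Finset.mem_filter, Finset.mem_univ, true_and]
    rw [hr, deg_pre hD hp]
    constructor
    · rintro (⟨i, h, h'⟩ | ⟨c', i, h, -⟩)
      · exact ⟨i, h, Sum.inr_injective h'⟩
      · cases h
    · rintro ⟨i, h, h'⟩
      exact Or.inl ⟨i, h, by rw [h']⟩

theorem ex_pos (hF : Lang F) {a : List C} (ha : F a) : 1 ≤ ex F a := by
  classical
  obtain ⟨c, hc⟩ := hF.left a ha
  unfold ex
  exact Finset.card_pos.2 ⟨c, by rw [Finset.mem_filter]; exact ⟨Finset.mem_univ _, hc⟩⟩

theorem sum_sub (hF : Lang F) (j : ℕ) (h : List C → ℕ) :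
    ∑ a ∈ FS F j, (ex F a + h a - 1) + pF F j = pF F (j + 1) + ∑ a ∈ FS F j, h a := by
  rw [← sum_ex hF, ← card_FS, Finset.card_eq_sum_ones, ← Finset.sum_add_distrib,
    ← Finset.sum_add_distrib]
  refine Finset.sum_congr rfl fun a ha => ?_
  have := ex_pos hF (mem_FS.1 ha).1
  omega

theorem pF_zero (hF : Lang F) : pF F 0 = 1 := by
  rw [← card_FS]
  have : FS F 0 = {[]} := by
    ext w
    rw [mem_FS, Finset.mem_singleton, List.length_eq_zero_iff]
    constructor
    · exact fun h => h.2
    · rintro rfl
      exact ⟨hF.nil, rfl⟩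
  rw [this, Finset.card_singleton]

omit [DecidableEq I] in
theorem sum_all (hF : Lang F) (n : ℕ) :
    ∑ j ∈ Finset.range n, ∑ a ∈ FS F j, (ex F a + mu g e a - 1) + 1 =
      pF F n + ∑ j ∈ Finset.range n, ∑ a ∈ FS F j, mu g e a := by
  induction n with
  | zero => simp [pF_zero hF]
  | succ n ih =>
    rw [Finset.sum_range_succ, Finset.sum_range_succ]
    have := sum_sub hF n (mu g e)
    omega

/-- **The complexity of the coded word**. -/
theorem recursion (hF : Lang F) (hinj : ∀ i j, g i = g j → e i = e j → i = j)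
    (hD : ∀ i n, ∃ m, n ≤ m ∧ D m = i) (h3 : ∀ i, F (g i)) [Nonempty X]
    (h1 : ∀ (x : X) (w : List C), F w → ∃ i, w <+: g i ∧ e i = x)
    (h2 : ∀ w : List C, F w → ∃ i, w <:+ g i) (n : ℕ) :
    complexity (uw D g e) (n + 1) + 1 = complexity (uw D g e) n + pF F (n + 1) +
      Fintype.card X * pF F n + ∑ j ∈ Finset.range n, ∑ a ∈ FS F j, mu g e a := by
  classical
  rw [complexity_eq, complexity_eq, card_succ]
  have h4 : ∑ w ∈ FF D g e n, dg D g e w =
      (FF D g e n).card + ∑ w ∈ FF D g e n, (dg D g e w - 1) := by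
    rw [Finset.card_eq_sum_ones, ← Finset.sum_add_distrib]
    refine Finset.sum_congr rfl fun w hw => ?_
    have := dg_pos hD (mem_FF.1 hw).2
    omega
  rw [h4]
  set Φ : (Σ _ : ℕ, List C) → List (C ⊕ X) := fun p => L X p.2 ++ pf D g e (n - p.1) with hΦ
  set T : Finset (List (C ⊕ X)) := ((Finset.range (n + 1)).sigma (FS F)).image Φ with hT
  have h5 : ∑ w ∈ FF D g e n, (dg D g e w - 1) = ∑ w ∈ T, (dg D g e w - 1) := by
    have e1 : ∑ w ∈ FF D g e n, (dg D g e w - 1) =
        ∑ w ∈ FF D g e n ∪ T, (dg D g e w - 1) := by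
      refine Finset.sum_subset Finset.subset_union_left fun w hw hw' => ?_
      have hlen : w.length = n := by
        rcases Finset.mem_union.1 hw with h | h
        · exact absurd h hw'
        · rw [hT, Finset.mem_image] at h
          obtain ⟨⟨j, a⟩, h6, h7⟩ := h
          rw [Finset.mem_sigma, Finset.mem_range, mem_FS] at h6
          simp only at h6
          rw [← h7, hΦ]
          simp only [List.length_append, List.length_map, pf_len]
          omega
      have : dg D g e w = 0 := by
        unfold dg
        rw [Finset.card_eq_zero, Finset.filter_eq_empty_iff]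
        intro x _ hx
        exact hw' (mem_FF.2 ⟨hlen, Lu_tail hx⟩)
      omega
    have e2 : ∑ w ∈ T, (dg D g e w - 1) = ∑ w ∈ FF D g e n ∪ T, (dg D g e w - 1) := by
      refine Finset.sum_subset Finset.subset_union_right fun w hw hw' => ?_
      have hFw : w ∈ FF D g e n := by
        rcases Finset.mem_union.1 hw with h | h
        · exact h
        · exact absurd h hw'
      have : dg D g e w ≤ 1 := by
        unfold dg
        rw [Finset.card_le_one]
        intro x hx y hy
        rw [Finset.mem_filter] at hx hy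
        by_contra hxy
        apply hw'
        rw [hT, Finset.mem_image]
        have hl := (mem_FF.1 hFw).1
        rcases classify hinj hxy hx.2 hy.2 with ⟨a, ha⟩ | ⟨a, y', r', hw2, m, hm⟩
        · refine ⟨⟨n, a⟩, ?_, ?_⟩
          · rw [ha, List.length_map] at hl
            rw [Finset.mem_sigma, Finset.mem_range, mem_FS]
            refine ⟨Nat.lt_succ_self n, ?_, hl⟩
            by_cases ha' : a = []
            · rw [ha']
              exact hF.nil
            · have := (mem_FF.1 hFw).2
              rw [ha, lu_gap hD ha'] at this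
              obtain ⟨i, hi⟩ := this
              exact hF.fac (h3 i) hi
          · rw [hΦ, ha]
            simp [pf]
        · rw [hw2, List.length_append, List.length_map] at hl
          have h6 := prefix_eq_pf hm
          have h7 : 0 < (Sum.inr y' :: r' : List (C ⊕ X)).length := by simp
          refine ⟨⟨a.length, a⟩, ?_, ?_⟩
          · rw [Finset.mem_sigma, Finset.mem_range, mem_FS]
            refine ⟨show a.length < n + 1 by omega, ?_, rfl⟩
            have h8 := hx.2
            rw [hw2, deg_pre hD hm] at h8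
            rcases h8 with ⟨i, h8, -⟩ | ⟨c, i, -, h8⟩
            · rw [← h8]
              exact h3 i
            · exact hF.fac (h3 i) ((List.suffix_cons c a).trans h8).isInfix
          · show L X a ++ pf D g e (n - a.length) = w
            rw [hw2, h6]
            congr 2
            omega
      omega
    rw [e1, e2]
  have h6 : ∑ w ∈ T, (dg D g e w - 1) =
      ∑ j ∈ Finset.range (n + 1), ∑ a ∈ FS F j, (dg D g e (L X a ++ pf D g e (n - j)) - 1) := by
    rw [hT, Finset.sum_image, Finset.sum_sigma]
    rintro ⟨j, a⟩ hj ⟨k, b⟩ hk h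
    rw [Finset.mem_coe, Finset.mem_sigma, Finset.mem_range, mem_FS] at hj hk
    have hab : a = b := L_app_inj (X := X) h (pf_cases _) (pf_cases _)
    simp only at hj hk
    subst hab
    have : j = k := by omega
    subst this
    rfl
  rw [h5, h6, Finset.sum_range_succ]
  have h7 : ∑ j ∈ Finset.range n, ∑ a ∈ FS F j, (dg D g e (L X a ++ pf D g e (n - j)) - 1) =
      ∑ j ∈ Finset.range n, ∑ a ∈ FS F j, (ex F a + mu g e a - 1) := by
    refine Finset.sum_congr rfl fun j hj => Finset.sum_congr rfl fun a _ => ?_
    rw [Finset.mem_range] at hj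
    rw [dg_pre hF hD h3 h2 (by omega)]
  have h8 : ∑ a ∈ FS F n, (dg D g e (L X a ++ pf D g e (n - n)) - 1) =
      ∑ a ∈ FS F n, (ex F a + Fintype.card X - 1) := by
    refine Finset.sum_congr rfl fun a ha => ?_
    rw [show L X a ++ pf D g e (n - n) = L X a by simp [pf],
      dg_gap hF hD h3 h1 (mem_FS.1 ha).1]
  rw [h7, h8]
  have h9 := sum_all (g := g) (e := e) hF n
  have h10 := sum_sub hF n (fun _ => Fintype.card X)
  rw [Finset.sum_const, card_FS, smul_eq_mul, mul_comm] at h10
  omega

end Pool.Agent.Helper79.DG
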