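import Pool.Agent.Helper79.DG.Bas

/-!
# Coding with gap words: the left special factors
-/

set_option autoImplicit false

namespace Pool.Agent.Helper79.DG

open Pool.Agent.Helper79.CF Pool.Agent.Helper79.DD

variable {I : Type} {C : Type} {X : Type} [DecidableEq I]
variable {D : ℕ → I} {g : I → List C} {e : I → X}

/-- The gap words in the coded alphabet. -/
abbrev L (X : Type) {C : Type} (w : List C) : List (C ⊕ X) := w.map Sum.inl

omit [DecidableEq I] in
theorem L_inj {w w' : List C} (h : L X w = L X w') : w = w' :=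
  List.map_injective_iff.2 Sum.inl_injective h

omit [DecidableEq I] in
theorem inr_notMem {x : X} {w : List C} (h : (Sum.inr x : C ⊕ X) ∈ L X w) : False := by
  rw [List.mem_map] at h
  obtain ⟨a, -, h⟩ := h
  cases h

omit [DecidableEq I] in
theorem gap_split {x : C ⊕ X} {y : X} {a b : List C} {s s' : List (C ⊕ X)}
    (h : s ++ x :: L X a = s' ++ Sum.inr y :: L X b) :
    (x = Sum.inr y ∧ a = b) ∨ ∃ c, x = Sum.inl c ∧ c :: a <:+ b := by
  rcases List.append_eq_append_iff.1 h with ⟨as, h3, h4⟩ | ⟨bs, h3, h4⟩
  · cases as with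
    | nil =>
      simp only [List.nil_append, List.cons.injEq] at h4
      exact Or.inl ⟨h4.1, L_inj h4.2⟩
    | cons q as =>
      simp only [List.cons_append, List.cons.injEq] at h4
      exact (inr_notMem (x := y) (w := a) (by rw [h4.2]; simp)).elim
  · cases bs with
    | nil =>
      simp only [List.nil_append, List.cons.injEq] at h4
      exact Or.inl ⟨h4.1.symm, (L_inj h4.2).symm⟩
    | cons q bs =>
      simp only [List.cons_append, List.cons.injEq] at h4
      right
      obtain ⟨b1, b2, h5, h6, h7⟩ := List.map_eq_append_iff.1 h4.2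
      cases b2 with
      | nil => simp at h7
      | cons c b2 =>
        simp only [List.map_cons, List.cons.injEq] at h7
        refine ⟨c, h7.1.symm, b1, ?_⟩
        rw [h5, L_inj (X := X) h7.2]

omit [DecidableEq I] in
theorem start_split {y : X} (q : List (C ⊕ X)) : ∀ (P : List I) (s : List (C ⊕ X)),
    code g e P = s ++ Sum.inr y :: q →
    ∃ P1 P2, P = P1 ++ P2 ∧ s = code g e P1 ∧ Sum.inr y :: q = code g e P2 := by
  intro P
  induction P with
  | nil =>
    intro s h
    have := congrArg List.length h
    simp [code] at this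
  | cons p P ih =>
    intro s h
    cases s with
    | nil => exact ⟨[], p :: P, rfl, rfl, h.symm⟩
    | cons x s =>
      simp only [code, List.cons_append, List.cons.injEq] at h
      obtain ⟨h1, h2⟩ := h
      rcases List.append_eq_append_iff.1 h2 with ⟨as, h3, h4⟩ | ⟨bs, h3, h4⟩
      · obtain ⟨P1, P2, h5, h6, h7⟩ := ih as h4
        exact ⟨p :: P1, P2, by rw [h5]; rfl, by rw [h3, h6, ← h1]; rfl, h7⟩
      · cases bs with
        | nil =>
          obtain ⟨P1, P2, h5, h6, h7⟩ := ih [] (by simpa using h4.symm)
          refine ⟨p :: P1, P2, by rw [h5]; rfl, ?_, h7⟩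
          rw [← h1]
          simp only [code, ← h6, List.append_nil]
          rw [h3]
          simp
        | cons b bs =>
          simp only [List.cons_append, List.cons.injEq] at h4
          have : b ∈ (g p).map (Sum.inl : C → C ⊕ X) := by
            rw [h3]
            simp
          rw [← h4.1] at this
          exact (inr_notMem this).elim

omit [DecidableEq I] in
theorem pre_parse : ∀ (P : List I) (r : List (C ⊕ X)), r ≠ [] → r <+: code g e P →
    ∃ (v : List I) (b : I) (P2 : List I) (t : List C), P = v ++ b :: P2 ∧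
      r = code g e v ++ Sum.inr (e b) :: L X t ∧ t <+: g b := by
  intro P
  induction P with
  | nil =>
    intro r hr h
    exact absurd (List.prefix_nil.1 h) hr
  | cons p P ih =>
    intro r hr h
    cases r with
    | nil => exact absurd rfl hr
    | cons x r =>
      obtain ⟨t, h⟩ := h
      simp only [code, List.cons_append, List.cons.injEq] at h
      obtain ⟨h1, h2⟩ := h
      rcases List.append_eq_append_iff.1 h2 with ⟨as, h3, h4⟩ | ⟨bs, h3, h4⟩
      · obtain ⟨b1, b2, h5, h6, h7⟩ := List.map_eq_append_iff.1 h3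
        exact ⟨[], p, P, b1, rfl, by rw [h1, ← h6]; rfl, b2, h5.symm⟩
      · by_cases hb : bs = []
        · refine ⟨[], p, P, g p, rfl, ?_, List.prefix_rfl⟩
          rw [h1, h3, hb, List.append_nil]
          rfl
        · obtain ⟨v, b, P2, t2, h5, h6, h7⟩ := ih bs hb ⟨t, h4.symm⟩
          refine ⟨p :: v, b, P2, t2, by rw [h5]; rfl, ?_, h7⟩
          rw [h1, h3, h6]
          simp [code]

omit [DecidableEq I] in
theorem gap_inj {h h' : X} (a : List C) : ∀ (b : List C) (l l' : List (C ⊕ X)),
    L X a ++ Sum.inr h :: l = L X b ++ Sum.inr h' :: l' →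
      a = b ∧ (Sum.inr h : C ⊕ X) :: l = Sum.inr h' :: l' := by
  induction a with
  | nil =>
    intro b l l' he
    cases b with
    | nil => exact ⟨rfl, by simpa using he⟩
    | cons y b =>
      simp only [List.map_nil, List.nil_append, List.map_cons, List.cons_append,
        List.cons.injEq] at he
      exact absurd he.1 (by simp)
  | cons x a ih =>
    intro b l l' he
    cases b with
    | nil =>
      simp only [List.map_nil, List.nil_append, List.map_cons, List.cons_append,
        List.cons.injEq] at he
      exact absurd he.1 (by simp)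
    | cons y b =>
      simp only [List.map_cons, List.cons_append, List.cons.injEq, Sum.inl.injEq] at he
      have := ih b l l' he.2
      exact ⟨by rw [he.1, this.1], this.2⟩

omit [DecidableEq I] in
theorem rest_cons (v : List I) (b : I) (t : List C) :
    ∃ (h : X) (l : List (C ⊕ X)), code g e v ++ Sum.inr (e b) :: L X t = Sum.inr h :: l := by
  cases v with
  | nil => exact ⟨e b, _, rfl⟩
  | cons x v => exact ⟨e x, _, rfl⟩

omit [DecidableEq I] in
theorem uniq (hinj : ∀ i j, g i = g j → e i = e j → i = j) (v : List I) :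
    ∀ (v2 : List I) (b b2 : I) (t t2 : List C),
    code g e v ++ Sum.inr (e b) :: L X t = code g e v2 ++ Sum.inr (e b2) :: L X t2 →
    v = v2 ∧ e b = e b2 ∧ t = t2 := by
  induction v with
  | nil =>
    intro v2 b b2 t t2 h
    cases v2 with
    | nil =>
      simp only [code, List.nil_append, List.cons.injEq, Sum.inr.injEq] at h
      exact ⟨rfl, h.1, L_inj h.2⟩
    | cons y v2 =>
      simp only [code, List.nil_append, List.cons_append, List.cons.injEq] at h
      exact (inr_notMem (x := e b2) (w := t) (by rw [h.2]; simp)).elim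
  | cons x v ih =>
    intro v2 b b2 t t2 h
    cases v2 with
    | nil =>
      simp only [code, List.nil_append, List.cons_append, List.cons.injEq] at h
      exact (inr_notMem (x := e b) (w := t2) (by rw [← h.2]; simp)).elim
    | cons y v2 =>
      simp only [code, List.cons_append, List.cons.injEq, List.append_assoc,
        Sum.inr.injEq] at h
      obtain ⟨a1, l1, e1⟩ := rest_cons (g := g) (e := e) v b t
      obtain ⟨a2, l2, e2⟩ := rest_cons (g := g) (e := e) v2 b2 t2
      have h2 := h.2
      rw [e1, e2] at h2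
      obtain ⟨h3, h4⟩ := gap_inj _ _ _ _ h2
      have h5 := ih v2 b b2 t t2 (by rw [e1, e2, h4])
      exact ⟨by rw [hinj x y h3 h.1, h5.1], h5.2⟩

theorem occ {x : C ⊕ X} {y : X} {a : List C} {r' : List (C ⊕ X)}
    (h : Lu D g e (x :: (L X a ++ Sum.inr y :: r'))) :
    ∃ (i : I) (v : List I) (b : I) (t : List C), Lg D (i :: (v ++ [b])) ∧
      Sum.inr y :: r' = code g e v ++ Sum.inr (e b) :: L X t ∧ t <+: g b ∧
      ((x = Sum.inr (e i) ∧ a = g i) ∨ ∃ c, x = Sum.inl c ∧ c :: a <:+ g i) := by
  obtain ⟨k, s, t', h⟩ := h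
  have h1 : code g e (pal k D) = (s ++ x :: L X a) ++ Sum.inr y :: (r' ++ t') := by
    rw [← h]
    simp
  obtain ⟨P1, P2, h2, h3, h4⟩ := start_split _ _ _ h1
  rcases List.eq_nil_or_concat P1 with h5 | ⟨P1', i, h5⟩
  · rw [h5] at h3
    have := congrArg List.length h3
    simp [code] at this
  · rw [List.concat_eq_append] at h5
    rw [h5, code_append] at h3
    have h6 : s ++ x :: L X a = code g e P1' ++ Sum.inr (e i) :: L X (g i) := by
      rw [h3]
      simp [code]
    obtain ⟨v, b, P3, t, h7, h8, h9⟩ := pre_parse (g := g) (e := e) P2 (Sum.inr y :: r')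
      (by simp) ⟨t', by rw [← h4]; simp⟩
    refine ⟨i, v, b, t, ⟨k, P1', P3, ?_⟩, h8, h9, gap_split h6⟩
    rw [h2, h5, h7]
    simp

omit [DecidableEq I] in
/-- Every list begins with letters of `C`, followed by nothing or by a letter of `X`. -/
theorem lead (w : List (C ⊕ X)) : ∃ (a : List C) (r : List (C ⊕ X)), w = L X a ++ r ∧
    (r = [] ∨ ∃ y r', r = Sum.inr y :: r') := by
  induction w with
  | nil => exact ⟨[], [], rfl, Or.inl rfl⟩
  | cons x w ih =>
    cases x with
    | inl c =>
      obtain ⟨a, r, h1, h2⟩ := ih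
      exact ⟨c :: a, r, by rw [h1]; rfl, h2⟩
    | inr y => exact ⟨[], Sum.inr y :: w, rfl, Or.inr ⟨y, w, rfl⟩⟩

/-- **Classification** of the left special factors. -/
theorem classify (hinj : ∀ i j, g i = g j → e i = e j → i = j)
    {x x' : C ⊕ X} {w : List (C ⊕ X)} (hxy : x ≠ x')
    (h1 : Lu D g e (x :: w)) (h2 : Lu D g e (x' :: w)) :
    (∃ a : List C, w = L X a) ∨ ∃ (a : List C) (y : X) (r' : List (C ⊕ X)),
      w = L X a ++ Sum.inr y :: r' ∧ ∃ m, Sum.inr y :: r' <+: code g e (pal m D) := by
  obtain ⟨a, r, hw, hr | ⟨y, r', hr⟩⟩ := lead w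
  · left
    exact ⟨a, by rw [hw, hr, List.append_nil]⟩
  · right
    rw [hr] at hw
    subst hw
    obtain ⟨i, v, b, t, g1, g2, g3, g4⟩ := occ h1
    obtain ⟨k, v2, b2, t2, f1, f2, f3, f4⟩ := occ h2
    obtain ⟨u1, u2, u3⟩ := uniq hinj v v2 b b2 t t2 (g2.symm.trans f2)
    subst u1
    subst u3
    have hlen : ∀ {c : C} {a b : List C}, a = b → ¬ (c :: a <:+ b) := by
      intro c a b h h'
      have := h'.length_le
      rw [h, List.length_cons] at this
      omega
    have hik : i ≠ k := by
      rintro rfl
      rcases g4 with g4 | ⟨c, g4, g5⟩ <;> rcases f4 with f4 | ⟨c', f4, f5⟩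
      · exact hxy (g4.1.trans f4.1.symm)
      · exact hlen g4.2 f5
      · exact hlen f4.2 g5
      · have := List.IsSuffix.eq_of_length
          (List.suffix_of_suffix_length_le g5 f5 (le_of_eq rfl)) rfl
        rw [List.cons.injEq] at this
        exact hxy (by rw [g4, f4, this.1])
    refine ⟨a, y, r', rfl, ?_⟩
    obtain ⟨m, hm⟩ := star hik g1 f1
    refine ⟨m, ?_⟩
    have key : ∀ b3 : I, t <+: g b3 → e b3 = e b → v ++ [b3] <+: pal m D →
        Sum.inr y :: r' <+: code g e (pal m D) := by
      intro b3 h3 h4 h5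
      refine List.IsPrefix.trans ?_ (code_prefix h5)
      rw [g2, code_append, ← h4]
      refine (List.prefix_append_right_inj _).2 ?_
      simp only [code, List.append_nil]
      refine List.cons_prefix_cons.2 ⟨rfl, ?_⟩
      obtain ⟨q, hq⟩ := h3
      rw [← hq, List.map_append]
      exact List.prefix_append _ _
    rcases hm with hm | hm
    · exact key b g3 rfl hm
    · exact key b2 f3 u2.symm hm

/-- Left extensions, second kind. -/
theorem deg_pre (hD : ∀ i n, ∃ m, n ≤ m ∧ D m = i)
    {x : C ⊕ X} {y : X} {a : List C} {r' : List (C ⊕ X)} {m : ℕ}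
    (hp : Sum.inr y :: r' <+: code g e (pal m D)) :
    Lu D g e (x :: (L X a ++ Sum.inr y :: r')) ↔
      (∃ i, g i = a ∧ Sum.inr (e i) = x) ∨ ∃ c i, x = Sum.inl c ∧ c :: a <:+ g i := by
  constructor
  · intro h
    obtain ⟨i, v, b, t, -, -, -, g4⟩ := occ h
    rcases g4 with g4 | ⟨c, g4, g5⟩
    · exact Or.inl ⟨i, g4.2.symm, g4.1.symm⟩
    · exact Or.inr ⟨c, i, g4, g5⟩
  · have key : ∀ i : I, ∃ k s t, code g e (pal k D) =
        s ++ (Sum.inr (e i) :: (L X (g i) ++ (code g e (pal m D) ++ t))) := by
      intro i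
      obtain ⟨k, s, t, h⟩ := lg_pre m D i (hD i)
      refine ⟨k, code g e s, code g e t, ?_⟩
      rw [← h, code_append, code_append]
      simp [code]
    obtain ⟨q, hq⟩ := hp
    rintro (⟨i, h1, h2⟩ | ⟨c, i, h1, d, h2⟩)
    · obtain ⟨k, s, t, h⟩ := key i
      refine ⟨k, s, q ++ t, ?_⟩
      rw [h, ← hq, h1, h2]
      simp
    · obtain ⟨k, s, t, h⟩ := key i
      refine ⟨k, s ++ Sum.inr (e i) :: L X d, q ++ t, ?_⟩
      rw [h, ← hq, h1, ← h2]
      simp

omit [DecidableEq I] in
theorem gap_infix {a : List C} (ha : a ≠ []) (t : List (C ⊕ X)) : ∀ (P : List I)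
    (s : List (C ⊕ X)), code g e P = s ++ (L X a ++ t) → ∃ i, a <:+: g i := by
  intro P
  induction P with
  | nil =>
    intro s h
    have := congrArg List.length h
    simp only [code, List.length_append, List.length_nil, List.length_map] at this
    exact absurd (List.length_eq_zero_iff.1 (by omega)) ha
  | cons p P ih =>
    intro s h
    cases s with
    | nil =>
      obtain ⟨c, a, rfl⟩ := List.exists_cons_of_ne_nil ha
      simp [code] at h
    | cons x s =>
      simp only [code, List.cons_append, List.cons.injEq] at h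
      obtain ⟨h1, h2⟩ := h
      have hfin : ∀ cs : List (C ⊕ X), L X (g p) = s ++ (L X a ++ cs) → ∃ i, a <:+: g i := by
        intro cs h3
        obtain ⟨b1, b2, h5, h6, h7⟩ := List.map_eq_append_iff.1 h3
        obtain ⟨b3, b4, h8, h9, -⟩ := List.map_eq_append_iff.1 h7
        refine ⟨p, b1, b4, ?_⟩
        rw [h5, h8, L_inj (X := X) h9, List.append_assoc]
      rcases List.append_eq_append_iff.1 h2 with ⟨as, h3, h4⟩ | ⟨bs, h3, h4⟩
      · exact ih as h4
      · rcases List.append_eq_append_iff.1 h4 with ⟨cs, h5, h6⟩ | ⟨cs, h5, h6⟩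
        · exact hfin cs (h3.trans (by rw [h5]))
        · cases cs with
          | nil => exact hfin [] (h3.trans (by rw [h5]; simp))
          | cons q cs =>
            exfalso
            have hq : q ∈ L X a := by
              rw [h5]
              simp
            cases P with
            | nil => simp [code] at h6
            | cons p' P =>
              simp only [code, List.cons_append, List.cons.injEq] at h6
              rw [← h6.1] at hq
              exact inr_notMem hq

/-- The factors over `C`. -/
theorem lu_gap (hD : ∀ i n, ∃ m, n ≤ m ∧ D m = i) {a : List C} (ha : a ≠ []) :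
    Lu D g e (L X a) ↔ ∃ i, a <:+: g i := by
  constructor
  · rintro ⟨k, s, t, h⟩
    exact gap_infix ha t (pal k D) s (by rw [← h, List.append_assoc])
  · rintro ⟨i, s, t, h⟩
    obtain ⟨k, s', t', h'⟩ := lg_pre 0 D i (hD i)
    refine ⟨k, code g e s' ++ Sum.inr (e i) :: L X s, L X t ++ code g e t', ?_⟩
    rw [← h', code_append, code_append]
    simp only [code, pal, List.append_nil]
    rw [← h]
    simp

omit [DecidableEq I] in
theorem head_gap {a : List C} {P : List I} {t : List (C ⊕ X)} (b : List C)
    (h : L X b ++ code g e P = L X a ++ t) : a <+: b := by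
  rcases List.append_eq_append_iff.1 h with ⟨cs, h5, h6⟩ | ⟨cs, h5, h6⟩
  · cases cs with
    | nil => exact ⟨[], by rw [List.append_nil] at h5 ⊢; exact L_inj (X := X) h5⟩
    | cons q cs =>
      exfalso
      have hq : q ∈ L X a := by
        rw [h5]
        simp
      cases P with
      | nil => simp [code] at h6
      | cons p' P =>
        simp only [code, List.cons_append, List.cons.injEq] at h6
        rw [← h6.1] at hq
        exact inr_notMem hq
  · obtain ⟨b1, b2, h7, h8, h9⟩ := List.map_eq_append_iff.1 h5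
    exact ⟨b2, by rw [h7, L_inj (X := X) h8]⟩

/-- Left extensions of the words over `C` by letters of `X`. -/
theorem lu_first (hD : ∀ i n, ∃ m, n ≤ m ∧ D m = i) {y : X} {a : List C} :
    Lu D g e (Sum.inr y :: L X a) ↔ ∃ i, a <+: g i ∧ e i = y := by
  constructor
  · rintro ⟨k, s, t, h⟩
    obtain ⟨P1, P2, h1, h2, h3⟩ := start_split (g := g) (e := e) (L X a ++ t) (pal k D) s (y := y)
      (by rw [← h]; simp)
    cases P2 with
    | nil => simp [code] at h3
    | cons p P2 =>
      simp only [code, List.cons.injEq, Sum.inr.injEq] at h3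
      exact ⟨p, head_gap _ h3.2.symm, h3.1.symm⟩
  · rintro ⟨i, ⟨t, h⟩, rfl⟩
    obtain ⟨k, s', t', h'⟩ := lg_pre 0 D i (hD i)
    refine ⟨k, code g e s', L X t ++ code g e t', ?_⟩
    rw [← h', code_append, code_append]
    simp only [code, pal, List.append_nil]
    rw [← h]
    simp

end Pool.Agent.Helper79.DG
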