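import Pool.Agent.Helper79.DD.Epi
import Pool.Agent.Helper79.CF.Base

/-!
# Coding with gap words: definitions
-/

set_option autoImplicit false

namespace Pool.Agent.Helper79.DG

open Pool.Agent.Helper79.CF Pool.Agent.Helper79.DD

variable {I : Type} {C : Type} {X : Type} [DecidableEq I]

/-- A factorial and extendable language. -/
structure Lang (F : List C → Prop) : Prop where
  nil : F []
  fac : ∀ {w v : List C}, F w → v <:+: w → F v
  right : ∀ w : List C, F w → ∃ a, F (w ++ [a])
  left : ∀ w : List C, F w → ∃ a, F (a :: w)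

/-- The number of its words of length `n`. -/
noncomputable def pF (F : List C → Prop) (n : ℕ) : ℕ := {w : List C | F w ∧ w.length = n}.ncard

/-- The coding `i ↦ e_i g_i`. -/
def code (g : I → List C) (e : I → X) : List I → List (C ⊕ X)
  | [] => []
  | i :: l => Sum.inr (e i) :: ((g i).map Sum.inl ++ code g e l)

/-- The factors of the coded word. -/
def Lu (D : ℕ → I) (g : I → List C) (e : I → X) (w : List (C ⊕ X)) : Prop :=
  ∃ k, w <:+: code g e (pal k D)

/-- The infinite word. -/
def uw (D : ℕ → I) (g : I → List C) (e : I → X) (n : ℕ) : C ⊕ X :=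
  (code g e (pal (n + 1) D)).getD n (Sum.inr (e (D 0)))

/-- Every factor occurs again. -/
def Rec {A : Type*} (u : ℕ → A) : Prop := ∀ i n, ∃ j, i < j ∧ ∀ t < n, u (j + t) = u (i + t)

end Pool.Agent.Helper79.DG
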