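import Pool.Agent.Helper79.DG.Bas

/-!
# Coding with gap words: the language of a recurrent word
-/

set_option autoImplicit false

namespace Pool.Agent.Helper79.DG

open Pool.Agent.Helper79.CF Pool.Agent.Helper79.DD

/-- The language of an infinite word. -/
def WF {C : Type} (v : ℕ → C) (w : List C) : Prop :=
  ∃ i : ℕ, w = List.ofFn fun j : Fin w.length => v (i + j)

theorem wf_iff {C : Type} (v : ℕ → C) (w : List C) :
    WF v w ↔ ∃ i : ℕ, ∀ (j : ℕ) (h : j < w.length), w[j] = v (i + j) := by
  constructor
  · rintro ⟨i, hi⟩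
    refine ⟨i, fun j h => ?_⟩
    have h1 : w[j]? = (List.ofFn fun j : Fin w.length => v (i + j))[j]? := by rw [← hi]
    rw [List.getElem?_eq_getElem h, List.getElem?_eq_getElem (by simpa using h)] at h1
    have h2 := Option.some.inj h1
    rw [h2, List.getElem_ofFn]
  · rintro ⟨i, hi⟩
    refine ⟨i, ?_⟩
    apply List.ext_getElem
    · simp
    · intro j h1 h2
      rw [List.getElem_ofFn]
      exact hi j h1

theorem lang_of_word {C : Type} (v : ℕ → C) (hv : Rec v) : Lang (WF v) where
  nil := ⟨0, rfl⟩
  fac := by
    intro w u hw hu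
    rw [wf_iff] at hw ⊢
    obtain ⟨i, hi⟩ := hw
    obtain ⟨s, t, rfl⟩ := hu
    refine ⟨i + s.length, fun j h => ?_⟩
    have h1 : s.length + j < (s ++ u ++ t).length := by
      simp only [List.length_append]; omega
    have h2 := hi (s.length + j) h1
    rw [add_assoc, ← h2]
    rw [List.getElem_append_left (by simp only [List.length_append]; omega),
      List.getElem_append_right (by omega)]
    congr 1
    omega
  right := by
    intro w hw
    rw [wf_iff] at hw
    obtain ⟨i, hi⟩ := hw
    refine ⟨v (i + w.length), ?_⟩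
    rw [wf_iff]
    refine ⟨i, fun j h => ?_⟩
    rw [List.length_append, List.length_singleton] at h
    by_cases h1 : j < w.length
    · rw [List.getElem_append_left h1]
      exact hi j h1
    · have h2 : j = w.length := by omega
      subst h2
      rw [List.getElem_append_right (le_refl _)]
      simp
  left := by
    intro w hw
    rw [wf_iff] at hw
    obtain ⟨i, hi⟩ := hw
    obtain ⟨j, hj, hj2⟩ := hv i w.length
    refine ⟨v (j - 1), ?_⟩
    rw [wf_iff]
    refine ⟨j - 1, fun l h => ?_⟩
    rw [List.length_cons] at h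
    rcases l with _ | l
    · rfl
    · rw [List.getElem_cons_succ, hi l (by omega), ← hj2 l (by omega)]
      congr 1
      omega

theorem pF_of_word {C : Type} [Fintype C] (v : ℕ → C) (n : ℕ) : pF (WF v) n = complexity v n := by
  unfold pF complexity
  have h : {w : List C | WF v w ∧ w.length = n} =
      (fun x : Fin n → C => List.ofFn x) '' factors v n := by
    ext w
    constructor
    · rintro ⟨h1, h2⟩
      subst h2
      obtain ⟨i, hi⟩ := h1
      exact ⟨fun j => v (i + j), ⟨i, rfl⟩, hi.symm⟩
    · rintro ⟨x, ⟨i, rfl⟩, rfl⟩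
      refine ⟨?_, by simp⟩
      rw [wf_iff]
      refine ⟨i, fun j h => ?_⟩
      rw [List.getElem_ofFn]
  rw [h, Set.ncard_image_of_injective _ (fun x y hxy => List.ofFn_injective hxy)]

end Pool.Agent.Helper79.DG
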