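import Pool.Agent.Helper79.DG.Bas

/-!
# Coding with gap words: the coded word is recurrent
-/

set_option autoImplicit false

namespace Pool.Agent.Helper79.DG

open Pool.Agent.Helper79.CF Pool.Agent.Helper79.DD

/-- The coded word is recurrent. -/
theorem rec_uw {I C X : Type} [DecidableEq I] {D : ℕ → I} (g : I → List C) (e : I → X)
    (hD : ∀ i n, ∃ m, n ≤ m ∧ D m = i) : Rec (uw D g e) := by
  intro i n
  obtain ⟨m, s, t, h⟩ := lg_pre (i + n) D (D 0) (hD (D 0))
  have hP : i + n ≤ (code g e (pal (i + n) D)).length := code_pal_len (i + n)
  have h1 : code g e (pal m D) =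
      code g e (s ++ [D 0]) ++ (code g e (pal (i + n) D) ++ code g e t) := by
    rw [← h, ← code_append, ← code_append]
    congr 1
    simp
  have hL : 1 ≤ (code g e (s ++ [D 0])).length :=
    le_trans (by simp) (code_len (g := g) (e := e) (s ++ [D 0]))
  refine ⟨(code g e (s ++ [D 0])).length + i, by omega, fun x hx => ?_⟩
  have h2 : i + x < (code g e (pal (i + n) D)).length := by omega
  have h3 : (code g e (s ++ [D 0])).length + i + x < (code g e (pal m D)).length := by
    rw [h1, List.length_append, List.length_append]
    omega
  rw [uw_eq h3, uw_eq h2]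
  have h4 : (code g e (pal m D))[(code g e (s ++ [D 0])).length + i + x]? =
      (code g e (pal (i + n) D))[i + x]? := by
    rw [h1, List.getElem?_append_right (by omega)]
    have : (code g e (s ++ [D 0])).length + i + x - (code g e (s ++ [D 0])).length = i + x := by
      omega
    rw [this, List.getElem?_append_left h2]
  rw [List.getElem?_eq_getElem h3, List.getElem?_eq_getElem h2] at h4
  exact Option.some.inj h4

end Pool.Agent.Helper79.DG
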