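import Pool.Agent.Helper79.DG.Cnt
import Pool.Agent.Helper79.DG.Cho
import Pool.Agent.Helper79.DG.Lng
import Pool.Agent.Helper79.DG.Rec
import Pool.Agent.Helper79.DD.Fin

/-!
# New complexity functions from old ones
-/

set_option autoImplicit false

namespace Pool.Agent.Helper79.DG

open Pool.Agent.Helper79.CF Pool.Agent.Helper79.DD

/-- The main construction, for a factorial and extendable language. -/
theorem main {C X : Type} [Fintype C] [Fintype X] [Nonempty X] {F : List C → Prop} (hF : Lang F)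
    (m : ℕ → ℕ) (hm : ∀ n, m n ≤ Fintype.card X * pF F n) (hinf : ∀ N, ∃ n, N ≤ n ∧ 0 < m n) :
    ∃ u : ℕ → C ⊕ X, Rec u ∧ ∀ n, complexity u (n + 1) + 1 = complexity u n + pF F (n + 1) +
      Fintype.card X * pF F n + ∑ j ∈ Finset.range n, m j := by
  classical
  obtain ⟨M, hM1, hM2, hM3, hM4⟩ := choice (X := X) hF m hm hinf
  let I := {p : List C × X // p ∈ M p.1.length}
  have hne : Nonempty I := by
    obtain ⟨x⟩ := ‹Nonempty X›
    obtain ⟨j, v, h1, -⟩ := hM3 x [] hF.nil
    have h2 := (hM2 j _ h1).2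
    exact ⟨⟨(v, x), by
      show (v, x) ∈ M v.length
      rw [show v.length = j from h2]
      exact h1⟩⟩
  obtain ⟨D, hD⟩ := exists_dir I
  set g : I → List C := fun i => i.1.1 with hg
  set e : I → X := fun i => i.1.2 with he
  have key : ∀ (a : List C) (y : X), (∃ i, g i = a ∧ e i = y) ↔ (a, y) ∈ M a.length := by
    intro a y
    constructor
    · rintro ⟨i, rfl, rfl⟩
      exact i.2
    · intro h
      exact ⟨⟨(a, y), h⟩, rfl, rfl⟩
  have h3 : ∀ i, F (g i) := fun i => (hM2 _ _ i.2).1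
  have h1 : ∀ (x : X) (w : List C), F w → ∃ i, w <+: g i ∧ e i = x := by
    intro x w hw
    obtain ⟨j, v, h4, h5⟩ := hM3 x w hw
    have h6 : v.length = j := (hM2 j _ h4).2
    exact ⟨⟨(v, x), by
      show (v, x) ∈ M v.length
      rw [h6]
      exact h4⟩, h5, rfl⟩
  have h2 : ∀ w : List C, F w → ∃ i, w <:+ g i := by
    intro w hw
    obtain ⟨j, p, h4, h5⟩ := hM4 w hw
    have h6 : p.1.length = j := (hM2 j _ h4).2
    exact ⟨⟨p, by
      rw [h6]
      exact h4⟩, h5⟩
  have hmu : ∀ j, ∑ a ∈ FS F j, mu g e a = m j := by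
    intro j
    have : M j = (((FS F j ×ˢ (Finset.univ : Finset X)).filter (fun p => p ∈ M j) :
        Finset (List C × X)) : Set (List C × X)) := by
      ext p
      simp only [Finset.coe_filter, Finset.mem_product, Finset.mem_univ, and_true, mem_FS,
        Set.mem_ofPred_eq]
      exact ⟨fun h => ⟨hM2 j p h, h⟩, fun h => h.2⟩
    rw [← (hM1 j).1, this, Set.ncard_coe_finset, Finset.card_filter, Finset.sum_product]
    refine Finset.sum_congr rfl fun a ha => ?_
    unfold mu
    rw [Finset.card_filter]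
    refine Finset.sum_congr rfl fun y _ => ?_
    have hl := (mem_FS.1 ha).2
    simp only [key, hl]
  refine ⟨uw D g e, rec_uw g e hD, fun n => ?_⟩
  rw [recursion hF (g := g) (e := e) (fun i j h4 h5 => Subtype.ext (Prod.ext h4 h5)) hD h3 h1 h2 n]
  simp only [hmu]

/-- **New complexity functions from old ones**. -/
theorem closure {C : Type} [Fintype C] (v : ℕ → C) (hv : Rec v) (k : ℕ) (hk : 1 ≤ k) (m : ℕ → ℕ)
    (hm : ∀ n, m n ≤ k * complexity v n) (hinf : ∀ N, ∃ n, N ≤ n ∧ 0 < m n) :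
    ∃ u : ℕ → C ⊕ Fin k, Rec u ∧ ∀ n, complexity u (n + 1) + 1 = complexity u n +
      complexity v (n + 1) + k * complexity v n + ∑ j ∈ Finset.range n, m j := by
  have : Nonempty (Fin k) := ⟨⟨0, hk⟩⟩
  have h := main (X := Fin k) (lang_of_word v hv) m (by
    intro n
    rw [pF_of_word, Fintype.card_fin]
    exact hm n) hinf
  simp only [pF_of_word, Fintype.card_fin] at h
  exact h

/-- All words. -/
theorem lang_all {C : Type} [Nonempty C] : Lang (fun _ : List C => True) :=
  ⟨trivial, fun _ _ => trivial, fun _ _ => ⟨Classical.arbitrary C, trivial⟩,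
    fun _ _ => ⟨Classical.arbitrary C, trivial⟩⟩

theorem pF_all (c n : ℕ) : pF (fun _ : List (Fin c) => True) n = c ^ n := by
  unfold pF
  have : {w : List (Fin c) | True ∧ w.length = n} = Set.range (List.ofFn (n := n)) := by
    ext w
    simp only [true_and, Set.mem_ofPred_eq, Set.mem_range]
    constructor
    · rintro rfl
      exact ⟨w.get, List.ofFn_get w⟩
    · rintro ⟨f, rfl⟩
      simp
  rw [this, ← Set.image_univ, Set.ncard_image_of_injective _ List.ofFn_injective, Set.ncard_univ,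
    Nat.card_eq_fintype_card]
  simp

/-- **Exponential version** of the theorem on second differences. -/
theorem second_diff_exp (B : Type*) [Fintype B] (c : ℕ) (hc : 1 ≤ c) (f : ℕ → ℕ) (h0 : f 0 = 1)
    (h1 : f 1 ≤ Fintype.card B) (hc1 : c < f 1)
    (h2 : ∀ n, 2 * f (n + 1) + f 1 * (c - 1) * c ^ n ≤ f (n + 2) + f n ∧
      f (n + 2) + f n ≤ 2 * f (n + 1) + (f 1 - 1) * c ^ (n + 1))
    (h3 : c = 1 ∨ ∀ N, ∃ n, N ≤ n ∧ 2 * f (n + 1) + f 1 * (c - 1) * c ^ n < f (n + 2) + f n) :
    ∃ u : ℕ → B, ∀ n, complexity u n = f n := by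
  by_cases h3' : ∀ N, ∃ n, N ≤ n ∧ 2 * f (n + 1) + f 1 * (c - 1) * c ^ n < f (n + 2) + f n
  swap
  · rcases h3 with h3 | h3
    · subst h3
      refine second_diff B f h0 h1 fun n => ?_
      have := h2 n
      simp only [Nat.sub_self, mul_zero, add_zero, one_pow, mul_one] at this
      omega
    · exact absurd h3 h3'
  choose m hmeq using fun n => Nat.exists_eq_add_of_le (h2 n).1
  obtain ⟨k, hk⟩ : ∃ k, f 1 = c + k := ⟨f 1 - c, by omega⟩
  obtain ⟨b, hb⟩ : ∃ b, c = b + 1 := ⟨c - 1, by omega⟩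
  have hm : ∀ n, m n ≤ k * c ^ n := by
    intro n
    have h4 := (h2 n).2
    rw [hmeq n, hk] at h4
    rw [show c - 1 = b by omega, show c + k - 1 = b + k by omega, pow_succ, hb] at h4
    rw [hb]
    nlinarith [h4]
  have hinf : ∀ N, ∃ n, N ≤ n ∧ 0 < m n := by
    intro N
    obtain ⟨n, h4, h5⟩ := h3' N
    refine ⟨n, h4, ?_⟩
    rw [hmeq n] at h5
    omega
  have : Nonempty (Fin c) := ⟨⟨0, hc⟩⟩
  have : Nonempty (Fin k) := ⟨⟨0, by omega⟩⟩
  obtain ⟨u, -, hu⟩ := main (X := Fin k) (lang_all (C := Fin c)) m (by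
    intro n
    rw [pF_all, Fintype.card_fin]
    exact hm n) hinf
  simp only [pF_all, Fintype.card_fin] at hu
  have hf : ∀ n, f (n + 1) + 1 = f n + c ^ (n + 1) + k * c ^ n + ∑ j ∈ Finset.range n, m j := by
    intro n
    induction n with
    | zero => simp [h0, hk]; omega
    | succ n ih =>
      have h4 : f (n + 2) + f n = 2 * f (n + 1) + f 1 * (c - 1) * c ^ n + m n := hmeq n
      have h5 : f (n + 1 + 1) = f (n + 2) := rfl
      rw [Finset.sum_range_succ, h5]
      rw [hk, show c - 1 = b by omega] at h4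
      rw [pow_succ c (n + 1), pow_succ c n] 
      rw [pow_succ c n] at ih
      rw [hb] at ih h4 ⊢
      nlinarith [ih, h4]
  obtain ⟨φ⟩ := Function.Embedding.nonempty_of_card_le (α := Fin c ⊕ Fin k) (β := B)
    (by rw [Fintype.card_sum, Fintype.card_fin, Fintype.card_fin, ← hk]; exact h1)
  refine ⟨fun i => φ (u i), fun n => ?_⟩
  rw [complexity_map φ φ.injective]
  induction n with
  | zero => rw [complexity_zero', h0]
  | succ n ih =>
    have := hu n
    have := hf n
    omega

end Pool.Agent.Helper79.DG
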