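import Pool.Agent.Helper79.DG.Fin

/-!
# The words of the theorem on second differences are recurrent
-/

set_option autoImplicit false

namespace Pool.Agent.Helper79.DR

open Pool.Agent.Helper79.CF Pool.Agent.Helper79.DD
open Pool.Agent.Helper79.DG (Rec)

/-- The coded word is recurrent. -/
theorem rec_uw {I : Type} {A : Type*} [DecidableEq I] {D : ℕ → I} (c : I → ℕ) (e : I → A) (z : A)
    (hD : ∀ i n, ∃ m, n ≤ m ∧ D m = i) : Rec (uw D c e z) := by
  intro i n
  obtain ⟨m, s, t, h⟩ := lg_pre (i + n) D (D 0) (hD (D 0))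
  have hP : i + n ≤ (code c e z (pal (i + n) D)).length := code_pal_len (i + n)
  have h1 : code c e z (pal m D) =
      code c e z (s ++ [D 0]) ++ (code c e z (pal (i + n) D) ++ code c e z t) := by
    rw [← h, ← code_append, ← code_append]
    congr 1
    simp
  have hL : 1 ≤ (code c e z (s ++ [D 0])).length :=
    le_trans (by simp) (code_len (c := c) (e := e) (z := z) (s ++ [D 0]))
  refine ⟨(code c e z (s ++ [D 0])).length + i, by omega, fun x hx => ?_⟩
  have h2 : i + x < (code c e z (pal (i + n) D)).length := by omega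
  have h3 : (code c e z (s ++ [D 0])).length + i + x < (code c e z (pal m D)).length := by
    rw [h1, List.length_append, List.length_append]
    omega
  rw [uw_eq h3, uw_eq h2]
  have h4 : (code c e z (pal m D))[(code c e z (s ++ [D 0])).length + i + x]? =
      (code c e z (pal (i + n) D))[i + x]? := by
    rw [h1, List.getElem?_append_right (by omega)]
    have : (code c e z (s ++ [D 0])).length + i + x - (code c e z (s ++ [D 0])).length = i + x := by
      omega
    rw [this, List.getElem?_append_left h2]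
  rw [List.getElem?_eq_getElem h3, List.getElem?_eq_getElem h2] at h4
  exact Option.some.inj h4

variable {A : Type} [Fintype A]

/-- From the sets `M j` of letters. -/
theorem from_sets (z : A) (M : ℕ → Finset A) (hz : ∀ j, z ∉ M j) (hne : ∃ j, (M j).Nonempty) :
    ∃ u : ℕ → A, Rec u ∧ ∀ n, complexity u (n + 1) = complexity u n +
      ((Nat.card {x : A // ∃ j, n ≤ j ∧ x ∈ M j} +
        Nat.card {_x : Unit // ∃ j, n < j ∧ (M j).Nonempty} - 1) +
      ∑ j ∈ Finset.range n, ((M j).card +
        Nat.card {_x : Unit // ∃ k, j < k ∧ (M k).Nonempty} - 1)) := by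
  classical
  let I := {p : ℕ × A // p.2 ∈ M p.1}
  have : Nonempty I := by
    obtain ⟨j, x, hx⟩ := hne
    exact ⟨⟨(j, x), hx⟩⟩
  obtain ⟨D, hD⟩ := exists_dir I
  have hz' : ∀ i : I, i.1.2 ≠ z := by
    intro i h
    apply hz i.1.1
    rw [← h]
    exact i.2
  refine ⟨uw D (fun i : I => i.1.1) (fun i : I => i.1.2) z, rec_uw _ _ _ hD, fun n => ?_⟩
  rw [recursion (c := fun i : I => i.1.1) (e := fun i : I => i.1.2) hz'
    (fun i j h1 h2 => Subtype.ext (Prod.ext h1 h2)) hD n]
  have hE : ∀ n, En (fun i : I => i.1.1) (fun i : I => i.1.2) n =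
      Nat.card {x : A // ∃ j, n ≤ j ∧ x ∈ M j} := by
    intro n
    unfold En
    rw [Nat.card_eq_fintype_card, Fintype.card_subtype]
    congr 1
    ext x
    simp only [Finset.mem_filter, Finset.mem_univ, true_and]
    constructor
    · rintro ⟨i, h1, h2⟩
      exact ⟨i.1.1, h1, by rw [← h2]; exact i.2⟩
    · rintro ⟨j, h1, h2⟩
      exact ⟨⟨(j, x), h2⟩, h1, rfl⟩
  have hG : ∀ n, Gn (fun i : I => i.1.1) n =
      Nat.card {_x : Unit // ∃ j, n < j ∧ (M j).Nonempty} := by
    intro n
    have : (∃ i : I, n < i.1.1) ↔ ∃ j, n < j ∧ (M j).Nonempty := by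
      constructor
      · rintro ⟨i, h⟩
        exact ⟨i.1.1, h, i.1.2, i.2⟩
      · rintro ⟨j, h, x, hx⟩
        exact ⟨⟨(j, x), hx⟩, h⟩
    unfold Gn
    by_cases h : ∃ j, n < j ∧ (M j).Nonempty
    · rw [if_pos (this.2 h), Nat.card_eq_fintype_card, Fintype.card_subtype]
      simp [h]
    · rw [if_neg (fun h' => h (this.1 h')), Nat.card_eq_fintype_card, Fintype.card_subtype]
      simp only [h]
      simp
  have hM : ∀ j, mm (fun i : I => i.1.1) (fun i : I => i.1.2) j = (M j).card := by
    intro j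
    unfold mm
    congr 1
    ext x
    simp only [Finset.mem_filter, Finset.mem_univ, true_and]
    constructor
    · rintro ⟨i, h1, h2⟩
      rw [← h1, ← h2]
      exact i.2
    · intro h
      exact ⟨⟨(j, x), h⟩, rfl, rfl⟩
  simp only [hE, hG, hM]

/-- The case of infinitely many positive second differences. -/
theorem case_inf {q : ℕ} (hq : 1 ≤ q) (m : ℕ → ℕ) (hm : ∀ n, m n ≤ q)
    (hinf : ∀ N, ∃ n, N ≤ n ∧ 0 < m n) :
    ∃ u : ℕ → Fin (q + 1), Rec u ∧ ∀ n, complexity u (n + 1) = complexity u n +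
      (q + ∑ j ∈ Finset.range n, m j) := by
  classical
  set K : ℕ → ℕ := fun n => ∑ j ∈ Finset.range n, m j with hK
  have hKs : ∀ n, K (n + 1) = K n + m n := fun n => Finset.sum_range_succ _ _
  have hKm : Monotone K := monotone_nat_of_le_succ fun n => by
    rw [hKs]
    omega
  have hKu : ∀ v, ∃ N, v < K N := by
    intro v
    induction v with
    | zero =>
      obtain ⟨n, -, h⟩ := hinf 0
      exact ⟨n + 1, by rw [hKs]; omega⟩
    | succ v ih =>
      obtain ⟨N, hN⟩ := ih
      obtain ⟨n, h1, h2⟩ := hinf N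
      have := hKm h1
      exact ⟨n + 1, by rw [hKs]; omega⟩
  let M : ℕ → Finset (Fin (q + 1)) := fun n => (Finset.range (m n)).image
    (fun t => ⟨(K n + t) % q + 1, Nat.succ_lt_succ (Nat.mod_lt _ hq)⟩)
  have hMz : ∀ j, (0 : Fin (q + 1)) ∉ M j := by
    intro j h
    obtain ⟨t, -, h1⟩ := Finset.mem_image.1 h
    have := congrArg Fin.val h1
    simp at this
  have hMc : ∀ j, (M j).card = m j := by
    intro j
    rw [Finset.card_image_of_injOn, Finset.card_range]
    intro t ht t' ht' h
    rw [Finset.mem_coe, Finset.mem_range] at ht ht'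
    have h1 := congrArg Fin.val h
    simp only [Nat.add_right_cancel_iff] at h1
    have h2 : t ≡ t' [MOD q] := Nat.ModEq.add_left_cancel' (K j) h1
    have h3 := hm j
    exact Nat.ModEq.eq_of_lt_of_lt h2 (by omega) (by omega)
  have hMe : ∀ x : Fin (q + 1), x ≠ 0 → ∀ n0, ∃ j, n0 ≤ j ∧ x ∈ M j := by
    intro x hx n0
    have hx0 : x.val ≠ 0 := fun h => hx (Fin.ext h)
    have hx1 := x.isLt
    obtain ⟨r, hr⟩ : ∃ r, x.val = r + 1 := ⟨x.val - 1, by omega⟩
    have hrq : r < q := by omega
    set v := r + q * K n0 with hv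
    have hv0 : K n0 ≤ v := by
      have : K n0 ≤ q * K n0 := Nat.le_mul_of_pos_left _ hq
      omega
    have hex := hKu v
    set N := Nat.find hex with hN
    have h1 : v < K N := Nat.find_spec hex
    have h2 : n0 < N := by
      by_contra h
      have := hKm (not_lt.1 h)
      omega
    obtain ⟨N', hN'⟩ : ∃ N', N = N' + 1 := ⟨N - 1, by omega⟩
    have h3 : K N' ≤ v := by
      by_contra h
      have := Nat.find_min' hex (not_le.1 h)
      omega
    rw [hN', hKs] at h1
    refine ⟨N', by omega, Finset.mem_image.2 ⟨v - K N', Finset.mem_range.2 (by omega), ?_⟩⟩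
    apply Fin.ext
    show (K N' + (v - K N')) % q + 1 = x.val
    rw [Nat.add_sub_cancel' h3, hv, Nat.add_mul_mod_self_left, Nat.mod_eq_of_lt hrq, hr]
  have hne : ∀ n, ∃ j, n < j ∧ (M j).Nonempty := by
    intro n
    obtain ⟨j, h1, h2⟩ := hMe (Fin.last q) (by
      intro h
      have := congrArg Fin.val h
      simp at this
      omega) (n + 1)
    exact ⟨j, h1, _, h2⟩
  obtain ⟨u, hr, hu⟩ := from_sets (0 : Fin (q + 1)) M hMz ((hne 0).imp fun j h => h.2)
  refine ⟨u, hr, fun n => ?_⟩
  rw [hu n, card_ne q rfl _ 0 (fun x => ⟨fun ⟨j, _, h⟩ hx => hMz j (hx ▸ h), fun hx => hMe x hx n⟩)]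
  simp only [hne, hMc]
  simp

/-- The case of finitely many positive second differences. -/
theorem case_fin {q : ℕ} (hq : 1 ≤ q) (m : ℕ → ℕ) (hm : ∀ n, m n ≤ q) (N : ℕ)
    (hfin : ∀ n, N ≤ n → m n = 0) :
    ∃ u : ℕ → Fin (q + 1), Rec u ∧ ∀ n, complexity u (n + 1) = complexity u n +
      (q + ∑ j ∈ Finset.range n, m j) := by
  classical
  let M : ℕ → Finset (Fin (q + 1)) := fun n =>
    if n < N then (Finset.univ.filter fun x : Fin (q + 1) => 1 ≤ x.val ∧ x.val ≤ m n)
    else if n = N then Finset.univ.erase 0 else if n = N + 1 then {Fin.last q} else ∅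
  have hM1 : ∀ n, n < N → M n =
      (Finset.univ.filter fun x : Fin (q + 1) => 1 ≤ x.val ∧ x.val ≤ m n) := fun n h => if_pos h
  have hM2 : M N = Finset.univ.erase 0 := by
    show (if N < N then _ else if N = N then _ else _) = _
    rw [if_neg (lt_irrefl _), if_pos rfl]
  have hM3 : M (N + 1) = {Fin.last q} := by
    show (if N + 1 < N then _ else if N + 1 = N then _ else if N + 1 = N + 1 then _ else _) = _
    rw [if_neg (by omega), if_neg (by omega), if_pos rfl]
  have hM4 : ∀ n, N + 1 < n → M n = ∅ := by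
    intro n h
    show (if n < N then _ else if n = N then _ else if n = N + 1 then _ else _) = _
    rw [if_neg (by omega), if_neg (by omega), if_neg (by omega)]
  have hlast : Fin.last q ≠ 0 := by
    intro h
    have := congrArg Fin.val h
    simp at this
    omega
  have hMz : ∀ j, (0 : Fin (q + 1)) ∉ M j := by
    intro j
    rcases lt_trichotomy j N with h | h | h
    · rw [hM1 j h]
      simp
    · rw [h, hM2]
      simp
    · rcases (Nat.succ_le_of_lt h).eq_or_lt with h' | h'
      · rw [← h', Nat.succ_eq_add_one, hM3, Finset.mem_singleton]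
        exact fun h => hlast h.symm
      · rw [hM4 j h']
        simp
  have hc1 : ∀ n, n < N → (M n).card = m n := by
    intro n h
    rw [hM1 n h]
    have h1 := hm n
    have : (Finset.univ.filter fun x : Fin (q + 1) => 1 ≤ x.val ∧ x.val ≤ m n) =
        (Finset.Ioc (0 : Fin (q + 1)) ⟨m n, by omega⟩) := by
      ext x
      simp only [Finset.mem_filter, Finset.mem_univ, true_and, Finset.mem_Ioc, Fin.lt_def,
        Fin.le_def, Nat.succ_le_iff]
      exact Iff.rfl
    rw [this, Fin.card_Ioc]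
    exact Nat.sub_zero _
  have hc2 : (M N).card = q := by
    rw [hM2, Finset.card_erase_of_mem (Finset.mem_univ _), Finset.card_univ, Fintype.card_fin]
    rfl
  have hc3 : (M (N + 1)).card = 1 := by rw [hM3, Finset.card_singleton]
  have hc4 : ∀ n, N + 1 < n → (M n).card = 0 := fun n h => by rw [hM4 n h, Finset.card_empty]
  have hG1 : ∀ n, n ≤ N → ∃ j, n < j ∧ (M j).Nonempty := fun n h =>
    ⟨N + 1, by omega, by rw [hM3]; exact Finset.singleton_nonempty _⟩
  have hG2 : ∀ n, N < n → ¬ ∃ j, n < j ∧ (M j).Nonempty := by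
    rintro n h ⟨j, h1, h2⟩
    rw [hM4 j (by omega)] at h2
    exact Finset.not_nonempty_empty h2
  obtain ⟨u, hr, hu⟩ := from_sets (0 : Fin (q + 1)) M hMz ⟨N + 1, by
    rw [hM3]; exact Finset.singleton_nonempty _⟩
  refine ⟨u, hr, fun n => ?_⟩
  rw [hu n]
  congr 1
  simp only [card_G]
  have hsumN : ∀ n, n ≤ N → ∑ j ∈ Finset.range n, ((M j).card +
      (if ∃ k, j < k ∧ (M k).Nonempty then 1 else 0) - 1) = ∑ j ∈ Finset.range n, m j := by
    intro n hn
    refine Finset.sum_congr rfl fun j hj => ?_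
    rw [Finset.mem_range] at hj
    rw [if_pos (hG1 j (by omega)), hc1 j (by omega)]
    omega
  rcases le_or_gt n N with hn | hn
  · rw [hsumN n hn, if_pos (hG1 n hn)]
    rw [card_ne q rfl _ 0 (fun x => ⟨fun ⟨j, _, h⟩ hx => hMz j (hx ▸ h), fun hx =>
      ⟨N, hn, by rw [hM2]; exact Finset.mem_erase.2 ⟨hx, Finset.mem_univ _⟩⟩⟩)]
    omega
  · have hfirst : Nat.card {x : Fin (q + 1) // ∃ j, n ≤ j ∧ x ∈ M j} +
        (if ∃ j, n < j ∧ (M j).Nonempty then 1 else 0) - 1 = 0 := by
      rw [if_neg (hG2 n hn)]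
      have : Nat.card {x : Fin (q + 1) // ∃ j, n ≤ j ∧ x ∈ M j} ≤ 1 := by
        rw [Finite.card_le_one_iff_subsingleton]
        have hx : ∀ x : Fin (q + 1), (∃ j, n ≤ j ∧ x ∈ M j) → x = Fin.last q := by
          rintro x ⟨j, h1, h2⟩
          rcases (show N + 1 ≤ j by omega).eq_or_lt with h | h
          · rw [← h, hM3, Finset.mem_singleton] at h2
            exact h2
          · rw [hM4 j h] at h2
            simp at h2
        exact ⟨fun a b => Subtype.ext ((hx a.1 a.2).trans (hx b.1 b.2).symm)⟩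
      omega
    rw [hfirst]
    obtain ⟨d, rfl⟩ := Nat.exists_eq_add_of_lt hn
    have h1 : ∀ d, ∑ j ∈ Finset.range (N + d + 1), ((M j).card +
        (if ∃ k, j < k ∧ (M k).Nonempty then 1 else 0) - 1) =
        q + ∑ j ∈ Finset.range (N + d + 1), m j := by
      intro d
      induction d with
      | zero =>
        rw [add_zero, Finset.sum_range_succ, Finset.sum_range_succ, hsumN N (le_refl _), hc2,
          if_pos (hG1 N (le_refl _)), hfin N (le_refl _)]
        omega
      | succ d ih =>
        rw [Finset.sum_range_succ, Finset.sum_range_succ (fun j => m j), show N + (d + 1) =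
          N + d + 1 by ring, ih, hfin (N + d + 1) (by omega), if_neg (hG2 (N + d + 1) (by omega))]
        have : (M (N + d + 1)).card ≤ 1 := by
          rcases Nat.eq_zero_or_pos d with h | h
          · rw [h, add_zero, hc3]
          · rw [hc4 _ (by omega)]
            omega
        omega
    rw [h1 d]
    omega

theorem case_all {q : ℕ} (hq : 1 ≤ q) (m : ℕ → ℕ) (hm : ∀ n, m n ≤ q) :
    ∃ u : ℕ → Fin (q + 1), Rec u ∧ ∀ n, complexity u (n + 1) = complexity u n +
      (q + ∑ j ∈ Finset.range n, m j) := by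
  by_cases h : ∀ N, ∃ n, N ≤ n ∧ 0 < m n
  · exact case_inf hq m hm h
  · push Not at h
    obtain ⟨N, hN⟩ := h
    exact case_fin hq m hm N fun n hn => Nat.le_zero.1 (hN n hn)

theorem rec_map {B : Type*} {C : Type*} (g : B → C) {u : ℕ → B} (hu : Rec u) :
    Rec fun i => g (u i) := by
  intro i n
  obtain ⟨j, h1, h2⟩ := hu i n
  exact ⟨j, h1, fun t ht => congrArg g (h2 t ht)⟩

/-- **Every function with second differences in `{0, …, f 1 - 1}` is a complexity function.** -/
theorem second_diff (B : Type*) [Fintype B] (f : ℕ → ℕ) (h0 : f 0 = 1)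
    (h1 : f 1 ≤ Fintype.card B)
    (h2 : ∀ n, 2 * f (n + 1) ≤ f (n + 2) + f n ∧ f (n + 2) + f n < 2 * f (n + 1) + f 1) :
    ∃ u : ℕ → B, Rec u ∧ ∀ n, complexity u n = f n := by
  have h10 : 1 ≤ f 1 := by
    have := h2 0
    omega
  obtain ⟨q, hq⟩ : ∃ q, f 1 = q + 1 := ⟨f 1 - 1, by omega⟩
  choose m hm using fun n => Nat.exists_eq_add_of_le (h2 n).1
  have hmq : ∀ n, m n ≤ q := by
    intro n
    have := (h2 n).2
    rw [hm n, hq] at this
    omega
  have hf : ∀ n, f (n + 1) = f n + (q + ∑ j ∈ Finset.range n, m j) := by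
    intro n
    induction n with
    | zero => simp [h0, hq]; omega
    | succ n ih =>
      have h3 : f (n + 2) + f n = 2 * f (n + 1) + m n := hm n
      have h4 : f (n + 1 + 1) = f (n + 2) := rfl
      rw [Finset.sum_range_succ, h4]
      omega
  obtain ⟨g, hg⟩ : ∃ g : Fin (q + 1) → B, Function.Injective g := by
    obtain ⟨g⟩ := Function.Embedding.nonempty_of_card_le (α := Fin (q + 1)) (β := B)
      (by rw [Fintype.card_fin, ← hq]; exact h1)
    exact ⟨g, g.injective⟩
  obtain ⟨u, hr, hu⟩ : ∃ u : ℕ → Fin (q + 1), Rec u ∧ ∀ n, complexity u (n + 1) = complexity u n +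
      (q + ∑ j ∈ Finset.range n, m j) := by
    rcases Nat.eq_zero_or_pos q with h | h
    · subst h
      refine ⟨fun _ => 0, fun i _ => ⟨i + 1, by omega, fun _ _ => rfl⟩, fun n => ?_⟩
      have hc : ∀ n, complexity (fun _ : ℕ => (0 : Fin (0 + 1))) n = 1 := by
        intro n
        unfold complexity
        have : factors (fun _ : ℕ => (0 : Fin (0 + 1))) n = {fun _ => 0} := by
          ext w
          simp only [Set.mem_singleton_iff]
          constructor
          · rintro ⟨i, rfl⟩
            rfl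
          · rintro rfl
            exact ⟨0, rfl⟩
        rw [this, Set.ncard_singleton]
      have hm0 : ∑ j ∈ Finset.range n, m j = 0 :=
        Finset.sum_eq_zero fun j _ => Nat.le_zero.1 (hmq j)
      rw [hc, hc, hm0]
    · exact case_all h m hmq
  refine ⟨fun i => g (u i), rec_map g hr, fun n => ?_⟩
  rw [complexity_map g hg]
  induction n with
  | zero => rw [complexity_zero', h0]
  | succ n ih => rw [hu, hf, ih]

/-- **Exponential version** of the theorem on second differences. -/
theorem second_diff_exp (B : Type*) [Fintype B] (c : ℕ) (hc : 1 ≤ c) (f : ℕ → ℕ) (h0 : f 0 = 1)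
    (h1 : f 1 ≤ Fintype.card B) (hc1 : c < f 1)
    (h2 : ∀ n, 2 * f (n + 1) + f 1 * (c - 1) * c ^ n ≤ f (n + 2) + f n ∧
      f (n + 2) + f n ≤ 2 * f (n + 1) + (f 1 - 1) * c ^ (n + 1))
    (h3 : c = 1 ∨ ∀ N, ∃ n, N ≤ n ∧ 2 * f (n + 1) + f 1 * (c - 1) * c ^ n < f (n + 2) + f n) :
    ∃ u : ℕ → B, Rec u ∧ ∀ n, complexity u n = f n := by
  by_cases h3' : ∀ N, ∃ n, N ≤ n ∧ 2 * f (n + 1) + f 1 * (c - 1) * c ^ n < f (n + 2) + f n
  swap
  · rcases h3 with h3 | h3
    · subst h3
      refine second_diff B f h0 h1 fun n => ?_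
      have := h2 n
      simp only [Nat.sub_self, mul_zero, add_zero, one_pow, mul_one] at this
      omega
    · exact absurd h3 h3'
  choose m hmeq using fun n => Nat.exists_eq_add_of_le (h2 n).1
  obtain ⟨k, hk⟩ : ∃ k, f 1 = c + k := ⟨f 1 - c, by omega⟩
  obtain ⟨b, hb⟩ : ∃ b, c = b + 1 := ⟨c - 1, by omega⟩
  have hm : ∀ n, m n ≤ k * c ^ n := by
    intro n
    have h4 := (h2 n).2
    rw [hmeq n, hk] at h4
    rw [show c - 1 = b by omega, show c + k - 1 = b + k by omega, pow_succ, hb] at h4
    rw [hb]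
    nlinarith [h4]
  have hinf : ∀ N, ∃ n, N ≤ n ∧ 0 < m n := by
    intro N
    obtain ⟨n, h4, h5⟩ := h3' N
    refine ⟨n, h4, ?_⟩
    rw [hmeq n] at h5
    omega
  have : Nonempty (Fin c) := ⟨⟨0, hc⟩⟩
  have : Nonempty (Fin k) := ⟨⟨0, by omega⟩⟩
  obtain ⟨u, hr, hu⟩ := DG.main (X := Fin k) (DG.lang_all (C := Fin c)) m (by
    intro n
    rw [DG.pF_all, Fintype.card_fin]
    exact hm n) hinf
  simp only [DG.pF_all, Fintype.card_fin] at hu
  have hf : ∀ n, f (n + 1) + 1 = f n + c ^ (n + 1) + k * c ^ n + ∑ j ∈ Finset.range n, m j := by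
    intro n
    induction n with
    | zero => simp [h0, hk]; omega
    | succ n ih =>
      have h4 : f (n + 2) + f n = 2 * f (n + 1) + f 1 * (c - 1) * c ^ n + m n := hmeq n
      have h5 : f (n + 1 + 1) = f (n + 2) := rfl
      rw [Finset.sum_range_succ, h5]
      rw [hk, show c - 1 = b by omega] at h4
      rw [pow_succ c (n + 1), pow_succ c n] 
      rw [pow_succ c n] at ih
      rw [hb] at ih h4 ⊢
      nlinarith [ih, h4]
  obtain ⟨φ⟩ := Function.Embedding.nonempty_of_card_le (α := Fin c ⊕ Fin k) (β := B)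
    (by rw [Fintype.card_sum, Fintype.card_fin, Fintype.card_fin, ← hk]; exact h1)
  refine ⟨fun i => φ (u i), rec_map φ hr, fun n => ?_⟩
  rw [complexity_map φ φ.injective]
  induction n with
  | zero => rw [complexity_zero', h0]
  | succ n ih =>
    have := hu n
    have := hf n
    omega

end Pool.Agent.Helper79.DR
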