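import Mathlib

/-!
# The counting sets of a set of pairs of a letter and a word
-/

namespace Pool.Agent.Helper79.DG

/-- The words of length `n` that are factors of the second component of a pair in `P`. -/
def inner {C X : Type} (P : Set (X × List C)) (n : ℕ) : Set (List C) :=
  {w | w.length = n ∧ ∃ p ∈ P, w <:+: p.2}

/-- The words of length `n` that are endings of the second component of a pair in `P`. -/
def endings {C X : Type} (P : Set (X × List C)) (n : ℕ) : Set (List C) :=
  {w | w.length = n ∧ ∃ p ∈ P, w <:+ p.2}

/-- The pairs of a letter and a beginning of length `n` of a second component to this letter. -/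
def beginnings {C X : Type} (P : Set (X × List C)) (n : ℕ) : Set (X × List C) :=
  {q | q.2.length = n ∧ ∃ h, (q.1, h) ∈ P ∧ q.2 <+: h}

/-- The pairs in `P` whose second component has length `n`. -/
def level {C X : Type} (P : Set (X × List C)) (n : ℕ) : Set (X × List C) :=
  {p | p ∈ P ∧ p.2.length = n}

end Pool.Agent.Helper79.DG
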