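import Pool.Agent.Helper79.DG.Fin
import Pool.Agent.Helper79.DG.Lan

/-!
# The complexity of the coded word for an arbitrary set of pairs
-/

set_option autoImplicit false

namespace Pool.Agent.Helper79.DG

open Pool.Agent.Helper79.CF Pool.Agent.Helper79.DD

variable {I : Type} {C : Type} {X : Type} [DecidableEq I]
variable {D : ℕ → I} {g : I → List C} {e : I → X}

/-- Inner words of the gaps. -/
def Inn (g : I → List C) (a : List C) : Prop := ∃ i, a <:+: g i

/-- Ends of the gaps. -/
def End (g : I → List C) (a : List C) : Prop := ∃ i, a <:+ g i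

variable [Fintype C] [Fintype X]

open Classical in
/-- The number of the letters followed by `a`. -/
noncomputable def bg (g : I → List C) (e : I → X) (a : List C) : ℕ :=
  (Finset.univ.filter (fun y => ∃ i, a <+: g i ∧ e i = y)).card

omit [Fintype X] in
theorem sum_ex' {F : List C → Prop} (hF : ∀ c a, F (c :: a) → F a) (n : ℕ) :
    ∑ a ∈ FS F n, ex F a = (FS F (n + 1)).card := by
  classical
  rw [Finset.card_eq_sum_card_fiberwise (f := List.tail) (t := FS F n)]
  · refine Finset.sum_congr rfl fun w hw => ?_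
    rw [mem_FS] at hw
    unfold ex
    refine Finset.card_bij (fun x _ => x :: w) ?_ ?_ ?_
    · intro x hx
      rw [Finset.mem_filter] at hx
      rw [Finset.mem_filter, mem_FS]
      exact ⟨⟨hx.2, by simp [hw.2]⟩, rfl⟩
    · intro x _ y _ h
      exact (List.cons.inj h).1
    · intro v hv
      rw [Finset.mem_filter, mem_FS] at hv
      obtain ⟨⟨h1, h2⟩, h3⟩ := hv
      cases v with
      | nil => simp at h2
      | cons x v =>
        simp only [List.tail_cons] at h3
        subst h3
        exact ⟨x, by rw [Finset.mem_filter]; exact ⟨Finset.mem_univ _, h1⟩, rfl⟩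
  · intro v hv
    rw [Finset.mem_coe, mem_FS] at hv ⊢
    cases v with
    | nil => simp at hv
    | cons x v => exact ⟨hF x v hv.1, by simpa using hv.2⟩

/-- Extensions of the words over `C`. -/
theorem dg_gap' (hD : ∀ i n, ∃ m, n ≤ m ∧ D m = i) {a : List C} :
    dg D g e (L X a) = ex (Inn g) a + bg g e a := by
  classical
  unfold dg ex bg
  rw [card_sum]
  congr 1
  · congr 1
    ext c
    simp only [Finset.mem_filter, Finset.mem_univ, true_and]
    rw [show (Sum.inl c :: L X a : List (C ⊕ X)) = L X (c :: a) from rfl,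
      lu_gap hD (by simp)]
    rfl
  · congr 1
    ext y
    simp only [Finset.mem_filter, Finset.mem_univ, true_and]
    rw [lu_first hD]

/-- Extensions of the other words. -/
theorem dg_pre' (hD : ∀ i n, ∃ m, n ≤ m ∧ D m = i) {a : List C} {m : ℕ} (hm : 0 < m) :
    dg D g e (L X a ++ pf D g e m) = ex (End g) a + mu g e a := by
  classical
  obtain ⟨r, hr⟩ := pf_head (D := D) (g := g) (e := e) hm
  have hp : Sum.inr (e (D 0)) :: r <+: code g e (pal m D) := by
    rw [← hr]
    exact List.take_prefix _ _
  unfold dg ex mu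
  rw [card_sum]
  congr 1
  · congr 1
    ext c
    simp only [Finset.mem_filter, Finset.mem_univ, true_and]
    rw [hr, deg_pre hD hp]
    constructor
    · rintro (⟨i, -, h⟩ | ⟨c', i, h, h'⟩)
      · cases h
      · rw [Sum.inl.injEq] at h
        rw [h]
        exact ⟨i, h'⟩
    · rintro ⟨i, hi⟩
      exact Or.inr ⟨c, i, rfl, hi⟩
  · congr 1
    ext y
    simp only [Finset.mem_filter, Finset.mem_univ, true_and]
    rw [hr, deg_pre hD hp]
    constructor
    · rintro (⟨i, h, h'⟩ | ⟨c', i, h, -⟩)
      · exact ⟨i, h, Sum.inr_injective h'⟩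
      · cases h
    · rintro ⟨i, h, h'⟩
      exact Or.inl ⟨i, h, by rw [h']⟩

omit [DecidableEq I] in
theorem end_pos {a : List C} (ha : End g a) : 1 ≤ ex (End g) a + mu g e a := by
  classical
  obtain ⟨i, s, hs⟩ := ha
  rcases List.eq_nil_or_concat s with h | ⟨s', c, h⟩
  · have : 1 ≤ mu g e a := by
      unfold mu
      refine Finset.card_pos.2 ⟨e i, ?_⟩
      rw [Finset.mem_filter]
      exact ⟨Finset.mem_univ _, i, by rw [← hs, h]; rfl, rfl⟩
    omega
  · have : 1 ≤ ex (End g) a := by
      unfold ex
      refine Finset.card_pos.2 ⟨c, ?_⟩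
      rw [Finset.mem_filter]
      exact ⟨Finset.mem_univ _, i, s', by rw [← hs, h]; simp⟩
    omega

omit [DecidableEq I] [Fintype X] in
theorem card_end_zero [Nonempty I] : (FS (End g) 0).card = 1 := by
  have : FS (End g) 0 = {[]} := by
    ext w
    rw [mem_FS, Finset.mem_singleton, List.length_eq_zero_iff]
    constructor
    · exact fun h => h.2
    · rintro rfl
      exact ⟨⟨Classical.arbitrary I, List.nil_suffix⟩, rfl⟩
  rw [this, Finset.card_singleton]

omit [DecidableEq I] in
theorem sum_end [Nonempty I] (n : ℕ) :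
    ∑ j ∈ Finset.range n, ∑ a ∈ FS (End g) j, (ex (End g) a + mu g e a - 1) + 1 =
      (FS (End g) n).card + ∑ j ∈ Finset.range n, ∑ a ∈ FS (End g) j, mu g e a := by
  induction n with
  | zero => simp [card_end_zero]
  | succ n ih =>
    rw [Finset.sum_range_succ, Finset.sum_range_succ]
    have h1 := sum_ex' (F := End g) (fun c a ⟨i, h⟩ => ⟨i, (List.suffix_cons c a).trans h⟩) n
    have h2 : ∑ a ∈ FS (End g) n, (ex (End g) a + mu g e a - 1) + (FS (End g) n).card =
        ∑ a ∈ FS (End g) n, ex (End g) a + ∑ a ∈ FS (End g) n, mu g e a := by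
      rw [Finset.card_eq_sum_ones, ← Finset.sum_add_distrib, ← Finset.sum_add_distrib]
      refine Finset.sum_congr rfl fun a ha => ?_
      have := end_pos (e := e) (mem_FS.1 ha).1
      omega
    omega

/-- **The complexity of the coded word**, for any set of pairs. -/
theorem recursion' [Nonempty I] (hinj : ∀ i j, g i = g j → e i = e j → i = j)
    (hD : ∀ i n, ∃ m, n ≤ m ∧ D m = i) (n : ℕ) :
    complexity (uw D g e) (n + 1) + (FS (Inn g) n).card + 1 =
      complexity (uw D g e) n + (FS (Inn g) (n + 1)).card + ∑ a ∈ FS (Inn g) n, bg g e a +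
      (FS (End g) n).card + ∑ j ∈ Finset.range n, ∑ a ∈ FS (End g) j, mu g e a := by
  classical
  rw [complexity_eq, complexity_eq, card_succ]
  have h4 : ∑ w ∈ FF D g e n, dg D g e w =
      (FF D g e n).card + ∑ w ∈ FF D g e n, (dg D g e w - 1) := by
    rw [Finset.card_eq_sum_ones, ← Finset.sum_add_distrib]
    refine Finset.sum_congr rfl fun w hw => ?_
    have := dg_pos hD (mem_FF.1 hw).2
    omega
  rw [h4]
  set Φ : (Σ _ : ℕ, List C) → List (C ⊕ X) := fun p => L X p.2 ++ pf D g e (n - p.1) with hΦ
  set T1 : Finset (Σ _ : ℕ, List C) := (Finset.range n).sigma (FS (End g)) with hT1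
  set T2 : Finset (Σ _ : ℕ, List C) := ({n} : Finset ℕ).sigma (FS (Inn g)) with hT2
  have hlt : ∀ p ∈ T1, p.1 < n ∧ End g p.2 ∧ p.2.length = p.1 := by
    rintro ⟨j, a⟩ h
    rw [hT1, Finset.mem_sigma, Finset.mem_range, mem_FS] at h
    exact h
  have hlt2 : ∀ p ∈ T2, p.1 = n ∧ Inn g p.2 ∧ p.2.length = n := by
    rintro ⟨j, a⟩ h
    rw [hT2, Finset.mem_sigma, Finset.mem_singleton, mem_FS] at h
    simp only at h
    exact ⟨h.1, h.2.1, h.2.2.trans h.1⟩
  have hinjΦ : ∀ p ∈ T1 ∪ T2, ∀ q ∈ T1 ∪ T2, Φ p = Φ q → p = q := by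
    rintro ⟨j, a⟩ hp ⟨k, b⟩ hq h
    have hab : a = b := L_app_inj (X := X) h (pf_cases _) (pf_cases _)
    subst hab
    have e1 : a.length = j := by
      rcases Finset.mem_union.1 hp with hp | hp
      · exact (hlt _ hp).2.2
      · exact (hlt2 _ hp).2.2.trans (hlt2 _ hp).1.symm
    have e2 : a.length = k := by
      rcases Finset.mem_union.1 hq with hq | hq
      · exact (hlt _ hq).2.2
      · exact (hlt2 _ hq).2.2.trans (hlt2 _ hq).1.symm
    rw [← e1, ← e2]
  have hdis : Disjoint T1 T2 := by
    rw [Finset.disjoint_left]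
    intro p h1 h2
    have := (hlt p h1).1
    have := (hlt2 p h2).1
    omega
  set T : Finset (List (C ⊕ X)) := (T1 ∪ T2).image Φ with hT
  have hlenT : ∀ w ∈ T, w.length = n := by
    intro w h
    rw [hT, Finset.mem_image] at h
    obtain ⟨⟨j, a⟩, h6, h7⟩ := h
    rw [← h7, hΦ]
    simp only [List.length_append, List.length_map, pf_len]
    rcases Finset.mem_union.1 h6 with h6 | h6
    · have h8 := (hlt _ h6).1
      have h9 := (hlt _ h6).2.2
      simp only at h8 h9
      omega
    · have h8 := (hlt2 _ h6).1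
      have h9 := (hlt2 _ h6).2.2
      simp only at h8 h9
      omega
  have h5 : ∑ w ∈ FF D g e n, (dg D g e w - 1) = ∑ w ∈ T, (dg D g e w - 1) := by
    have e1 : ∑ w ∈ FF D g e n, (dg D g e w - 1) =
        ∑ w ∈ FF D g e n ∪ T, (dg D g e w - 1) := by
      refine Finset.sum_subset Finset.subset_union_left fun w hw hw' => ?_
      have hlen : w.length = n := by
        rcases Finset.mem_union.1 hw with h | h
        · exact absurd h hw'
        · exact hlenT w h
      have : dg D g e w = 0 := by
        unfold dg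
        rw [Finset.card_eq_zero, Finset.filter_eq_empty_iff]
        intro x _ hx
        exact hw' (mem_FF.2 ⟨hlen, Lu_tail hx⟩)
      omega
    have e2 : ∑ w ∈ T, (dg D g e w - 1) = ∑ w ∈ FF D g e n ∪ T, (dg D g e w - 1) := by
      refine Finset.sum_subset Finset.subset_union_right fun w hw hw' => ?_
      have hFw : w ∈ FF D g e n := by
        rcases Finset.mem_union.1 hw with h | h
        · exact h
        · exact absurd h hw'
      have : dg D g e w ≤ 1 := by
        unfold dg
        rw [Finset.card_le_one]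
        intro x hx y hy
        rw [Finset.mem_filter] at hx hy
        by_contra hxy
        apply hw'
        rw [hT, Finset.mem_image]
        have hl := (mem_FF.1 hFw).1
        rcases classify hinj hxy hx.2 hy.2 with ⟨a, ha⟩ | ⟨a, y', r', hw2, m, hm⟩
        · refine ⟨⟨n, a⟩, Finset.mem_union_right _ ?_, ?_⟩
          · rw [ha, List.length_map] at hl
            rw [hT2, Finset.mem_sigma, Finset.mem_singleton, mem_FS]
            refine ⟨rfl, ?_, hl⟩
            by_cases ha' : a = []
            · rw [ha']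
              exact ⟨Classical.arbitrary I, List.nil_infix⟩
            · have := (mem_FF.1 hFw).2
              rw [ha, lu_gap hD ha'] at this
              exact this
          · rw [hΦ, ha]
            simp [pf]
        · rw [hw2, List.length_append, List.length_map] at hl
          have h6 := prefix_eq_pf hm
          have h7 : 0 < (Sum.inr y' :: r' : List (C ⊕ X)).length := by simp
          refine ⟨⟨a.length, a⟩, Finset.mem_union_left _ ?_, ?_⟩
          · rw [hT1, Finset.mem_sigma, Finset.mem_range, mem_FS]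
            refine ⟨show a.length < n by omega, ?_, rfl⟩
            have h8 := hx.2
            rw [hw2, deg_pre hD hm] at h8
            rcases h8 with ⟨i, h8, -⟩ | ⟨c, i, -, h8⟩
            · exact ⟨i, by rw [h8]⟩
            · exact ⟨i, (List.suffix_cons c a).trans h8⟩
          · show L X a ++ pf D g e (n - a.length) = w
            rw [hw2, h6]
            congr 2
            omega
      omega
    rw [e1, e2]
  have h6 : ∑ w ∈ T, (dg D g e w - 1) =
      ∑ j ∈ Finset.range n, ∑ a ∈ FS (End g) j, (ex (End g) a + mu g e a - 1) +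
        ∑ a ∈ FS (Inn g) n, (ex (Inn g) a + bg g e a - 1) := by
    rw [hT, Finset.sum_image hinjΦ, Finset.sum_union hdis, hT1, hT2, Finset.sum_sigma,
      Finset.sum_sigma, Finset.sum_singleton]
    congr 1
    · refine Finset.sum_congr rfl fun j hj => Finset.sum_congr rfl fun a _ => ?_
      rw [Finset.mem_range] at hj
      show dg D g e (L X a ++ pf D g e (n - j)) - 1 = _
      rw [dg_pre' hD (by omega)]
    · refine Finset.sum_congr rfl fun a ha => ?_
      show dg D g e (L X a ++ pf D g e (n - n)) - 1 = _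
      rw [show L X a ++ pf D g e (n - n) = L X a by simp [pf], dg_gap' hD]
  rw [h5, h6]
  have h9 := sum_end (g := g) (e := e) n
  have h10 : ∑ a ∈ FS (Inn g) n, (ex (Inn g) a + bg g e a - 1) + (FS (Inn g) n).card =
      (FS (Inn g) (n + 1)).card + ∑ a ∈ FS (Inn g) n, bg g e a := by
    rw [← sum_ex' (F := Inn g) (fun c a ⟨i, h⟩ => ⟨i, (List.suffix_cons c a).isInfix.trans h⟩) n,
      Finset.card_eq_sum_ones, ← Finset.sum_add_distrib, ← Finset.sum_add_distrib]
    refine Finset.sum_congr rfl fun a ha => ?_
    have hLu : Lu D g e (L X a) := by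
      by_cases ha' : a = []
      · rw [ha']
        exact ⟨0, List.nil_infix⟩
      · exact (lu_gap hD ha').2 (mem_FS.1 ha).1
    have := dg_pos hD hLu
    rw [dg_gap' hD] at this
    omega
  omega

omit [Fintype X] in
theorem card_FS' {F : List C → Prop} (n : ℕ) :
    (FS F n).card = {w : List C | w.length = n ∧ F w}.ncard := by
  rw [← Set.ncard_coe_finset]
  congr 1
  ext w
  rw [Finset.mem_coe, mem_FS]
  exact and_comm

/-- **The master formula.** -/
theorem master {C X : Type} [Fintype C] [Fintype X] (P : Set (X × List C)) (hP : P.Nonempty) :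
    ∃ u : ℕ → C ⊕ X, Rec u ∧ ∀ n, complexity u (n + 1) + (inner P n).ncard + 1 =
      complexity u n + (inner P (n + 1)).ncard + (beginnings P n).ncard + (endings P n).ncard +
        ∑ j ∈ Finset.range n, (level P j).ncard := by
  classical
  let I := {p : X × List C // p ∈ P}
  have : Nonempty I := ⟨⟨hP.some, hP.some_mem⟩⟩
  obtain ⟨D, hD⟩ := exists_dir I
  set g : I → List C := fun i => i.1.2 with hg
  set e : I → X := fun i => i.1.1 with he
  have h1 : ∀ n, (inner P n).ncard = (FS (Inn g) n).card := by
    intro n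
    rw [card_FS']
    congr 1
    ext w
    constructor
    · rintro ⟨h, p, hp, h'⟩
      exact ⟨h, ⟨p, hp⟩, h'⟩
    · rintro ⟨h, i, h'⟩
      exact ⟨h, i.1, i.2, h'⟩
  have h2 : ∀ n, (endings P n).ncard = (FS (End g) n).card := by
    intro n
    rw [card_FS']
    congr 1
    ext w
    constructor
    · rintro ⟨h, p, hp, h'⟩
      exact ⟨h, ⟨p, hp⟩, h'⟩
    · rintro ⟨h, i, h'⟩
      exact ⟨h, i.1, i.2, h'⟩
  have h3 : ∀ n, (beginnings P n).ncard = ∑ a ∈ FS (Inn g) n, bg g e a := by
    intro n
    have : beginnings P n = ((((Finset.univ : Finset X) ×ˢ FS (Inn g) n).filter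
        (fun q => ∃ i, q.2 <+: g i ∧ e i = q.1) : Finset (X × List C)) : Set (X × List C)) := by
      ext q
      simp only [Finset.coe_filter, Finset.mem_product, Finset.mem_univ, true_and, mem_FS]
      constructor
      · rintro ⟨h, v, hv, h'⟩
        exact ⟨⟨⟨⟨(q.1, v), hv⟩, h'.isInfix⟩, h⟩, ⟨(q.1, v), hv⟩, h', rfl⟩
      · rintro ⟨⟨-, h⟩, i, h', h''⟩
        exact ⟨h, g i, by rw [← h'']; exact i.2, h'⟩
    rw [this, Set.ncard_coe_finset, Finset.card_filter, Finset.sum_product_right]
    refine Finset.sum_congr rfl fun a _ => ?_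
    unfold bg
    rw [Finset.card_filter]
  have h4 : ∀ n, (level P n).ncard = ∑ a ∈ FS (End g) n, mu g e a := by
    intro n
    have : level P n = ((((Finset.univ : Finset X) ×ˢ FS (End g) n).filter
        (fun q => ∃ i, g i = q.2 ∧ e i = q.1) : Finset (X × List C)) : Set (X × List C)) := by
      ext q
      simp only [Finset.coe_filter, Finset.mem_product, Finset.mem_univ, true_and, mem_FS]
      constructor
      · rintro ⟨h, h'⟩
        exact ⟨⟨⟨⟨q, h⟩, List.suffix_rfl⟩, h'⟩, ⟨q, h⟩, rfl, rfl⟩
      · rintro ⟨⟨-, h⟩, i, h', h''⟩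
        refine ⟨?_, h⟩
        have : i.1 = q := Prod.ext h'' h'
        rw [← this]
        exact i.2
    rw [this, Set.ncard_coe_finset, Finset.card_filter, Finset.sum_product_right]
    refine Finset.sum_congr rfl fun a _ => ?_
    unfold mu
    rw [Finset.card_filter]
  refine ⟨uw D g e, rec_uw g e hD, fun n => ?_⟩
  rw [h1, h1, h2, h3]
  simp only [h4]
  exact recursion' (g := g) (e := e) (fun i j h5 h6 => Subtype.ext (Prod.ext h6 h5)) hD n

end Pool.Agent.Helper79.DG
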